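import Pool.Agent.H3.Tal.Coef

/-! Bounds of `TT`, `Dn`, `mm` by finitely many coefficients. -/

set_option autoImplicit false

open Finset Real Filter Topology

namespace Pool.Agent.H58.Tal.M5

lemma tend_sqrt : Tendsto (fun x : ℝ => √x) (𝓝[<] 1) (𝓝[<] 1) := by
  apply tendsto_nhdsWithin_of_tendsto_nhds_of_eventually_within
  · apply Tendsto.mono_left _ nhdsWithin_le_nhds
    have := (Real.continuous_sqrt).tendsto 1
    simpa using this
  · filter_upwards [Ioo_mem_nhdsLT (zero_lt_one' ℝ)] with x hx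
    have := Real.sqrt_lt_sqrt hx.1.le hx.2
    simpa using this

lemma tend_one_sub : Tendsto (fun s : ℝ => 1 - s) (𝓝[<] 1) (𝓝[>] 0) := by
  apply tendsto_nhdsWithin_of_tendsto_nhds_of_eventually_within
  · apply Tendsto.mono_left _ nhdsWithin_le_nhds
    have : Continuous (fun s : ℝ => 1 - s) := by fun_prop
    have := this.tendsto 1
    simpa using this
  · filter_upwards [self_mem_nhdsWithin] with x hx
    simp only [Set.mem_Iio] at hx
    simp only [Set.mem_Ioi]; linarith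

lemma tend_r0 (r : ℝ) (hr : 0 < r) : Tendsto (fun y : ℝ => y ^ r) (𝓝[>] 0) (𝓝 0) := by
  have h := (Real.continuousAt_rpow_const 0 r (Or.inr hr.le)).tendsto
  rw [Real.zero_rpow hr.ne'] at h
  exact h.mono_left nhdsWithin_le_nhds

lemma tend_r1 (r : ℝ) (hr : 0 < r) :
    Tendsto (fun y : ℝ => y ^ r * Real.log y) (𝓝[>] 0) (𝓝 0) := by
  have h := tendsto_log_mul_rpow_nhdsGT_zero hr
  refine h.congr (fun y => by ring)

lemma tend_r2 (r : ℝ) (hr : 0 < r) :
    Tendsto (fun y : ℝ => y ^ r * Real.log y ^ 2) (𝓝[>] 0) (𝓝 0) := by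
  have h := tendsto_log_mul_rpow_nhdsGT_zero (half_pos hr)
  have h2 := h.mul h
  rw [mul_zero] at h2
  refine h2.congr' ?_
  filter_upwards [self_mem_nhdsWithin] with y hy
  have hy' : (0:ℝ) < y := hy
  have : y ^ r = y ^ (r / 2) * y ^ (r / 2) := by
    rw [← Real.rpow_add hy']; ring_nf
  rw [this]; ring

lemma tend_TT (e : ℝ) (h0 : 0 < e) : Tendsto (fun s : ℝ => TT e s) (𝓝[<] 1) (𝓝 0) := by
  have hr : 0 < 1 + e := by linarith
  have a0 := (tend_r0 (1 + e) hr).comp tend_one_sub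
  have a1 := (tend_r1 (1 + e) hr).comp tend_one_sub
  have a2 := (tend_r2 (1 + e) hr).comp tend_one_sub
  have cp : ContinuousAt (fun s : ℝ => (1 + s) ^ (1 + e)) 1 := by
    apply ContinuousAt.rpow_const (by fun_prop)
    left; norm_num
  have cl : ContinuousAt (fun s : ℝ => Real.log (1 + s)) 1 := by
    apply ContinuousAt.log (by fun_prop); norm_num
  have b0 : Tendsto (fun s : ℝ => (1 + s) ^ (1 + e)) (𝓝[<] 1) (𝓝 (2 ^ (1 + e))) := by
    have := cp.tendsto.mono_left (nhdsWithin_le_nhds (s := Set.Iio 1))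
    norm_num at this; exact this
  have bl : Tendsto (fun s : ℝ => Real.log (1 + s)) (𝓝[<] 1) (𝓝 (Real.log 2)) := by
    have := cl.tendsto.mono_left (nhdsWithin_le_nhds (s := Set.Iio 1))
    norm_num at this; exact this
  have h := ((((b0.add a0).div_const 2).sub_const 1).const_mul
    (Real.log 2 ^ 2 + c1 e * Real.log 2 + c2 e)).const_add ((1 + e) * Real.log 2 ^ 2)
  have h1 := (((b0.mul bl).add a1).div_const 2).const_mul (2 * Real.log 2 + c1 e)
  have h2 := ((b0.mul (bl.pow 2)).add a2).div_const 2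
  have h3 := (h.sub h1).add h2
  have e2 : (2:ℝ) ^ (1 + e) = 2 * 2 ^ e := by
    rw [Real.rpow_add (by norm_num), Real.rpow_one]
  have hne : (2:ℝ) ^ e - 1 ≠ 0 := by
    have := two_rpow_sub_pos e h0
    exact this.ne'
  have e3 : c2 e * ((2:ℝ) ^ e - 1) = c1 e * Real.log 2 - e * Real.log 2 ^ 2 := by
    rw [c2]; field_simp
  have e4 : (1 + e) * Real.log 2 ^ 2 + (Real.log 2 ^ 2 + c1 e * Real.log 2 + c2 e) *
      (((2:ℝ) ^ (1 + e) + 0) / 2 - 1) -
      (2 * Real.log 2 + c1 e) * (((2:ℝ) ^ (1 + e) * Real.log 2 + 0) / 2) +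
      ((2:ℝ) ^ (1 + e) * Real.log 2 ^ 2 + 0) / 2 = 0 := by
    rw [e2]
    linear_combination e3
  rw [e4] at h3
  refine h3.congr (fun s => ?_)
  simp only [TT, Nv, nn1, nn2, Function.comp_apply]

/-- upper bound of `TT` -/
lemma TT_le (e s : ℝ) (h0 : 0 < e) (h1 : e < 1) (hs0 : 0 ≤ s) (hs1 : s < 1)
    (hT : ∀ j, 1 ≤ j → 0 ≤ Tn e j) (J : ℕ) (hJ : 1 ≤ J) :
    TT e s ≤ ∑ j ∈ range (J + 1), Tc e j * (s ^ 2) ^ j
      + (s ^ 2) ^ (J + 1) * (0 - ∑ j ∈ range (J + 1), Tc e j) := by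
  have h := tail_bound (Tc e) (fun x => TT e (√x)) J 0 (fun x hx0 hx1 => by
    have hsx : |√x| < 1 := by
      rw [abs_of_nonneg (Real.sqrt_nonneg x)]
      rw [Real.sqrt_lt' one_pos]; simpa using hx1
    have := hasSum_TT e (√x) h0 h1 hsx
    rwa [Real.sq_sqrt hx0] at this) (fun j hj => by
      obtain ⟨i, rfl⟩ : ∃ i, j = i + 1 := ⟨j - 1, by omega⟩
      exact hT i (by omega)) ((tend_TT e h0).comp tend_sqrt) (s ^ 2) (by positivity) (by nlinarith)
  simpa [Real.sqrt_sq hs0] using h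

lemma nu0_nonneg (j : ℕ) : 0 ≤ nu j 0 := by
  induction j with
  | zero => simp [nu]
  | succ j ih => rw [nu]; simp only [sub_zero]; positivity

/-- upper bound of `Dn` -/
lemma Dn_le (s : ℝ) (hs0 : 0 ≤ s) (hs1 : s < 1) :
    Dn s ≤ s ^ 2 / 2 + (s ^ 2) ^ 2 / 12 + (s ^ 2) ^ 3 * (Real.log 2 - 7 / 12) := by
  have hsum : ∀ s : ℝ, |s| < 1 →
      HasSum (fun j => b1 (2 * j) 1 * (s ^ 2) ^ j) (Dn s) := by
    intro s hs
    have hs' : |-s| < 1 := by simpa using hs
    have h := hasSum_even (fun k => b1 k 1) s _ _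
      (hasSum_b1 1 s (by norm_num) (by norm_num) hs)
      (hasSum_b1 1 (-s) (by norm_num) (by norm_num) hs')
    have e1 : Dn s = ((1 + s) ^ (1:ℝ) * Real.log (1 + s)
        + (1 + -s) ^ (1:ℝ) * Real.log (1 + -s)) / 2 := by
      rw [Dn, Real.rpow_one, Real.rpow_one, ← sub_eq_add_neg]
    rw [e1]; exact h
  have hlim : Tendsto (fun s : ℝ => Dn s) (𝓝[<] 1) (𝓝 (Real.log 2)) := by
    have a1 := (tend_r1 1 one_pos).comp tend_one_sub
    have cl : ContinuousAt (fun s : ℝ => (1 + s) * Real.log (1 + s)) 1 := by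
      apply ContinuousAt.mul (by fun_prop)
      apply ContinuousAt.log (by fun_prop); norm_num
    have b0 : Tendsto (fun s : ℝ => (1 + s) * Real.log (1 + s)) (𝓝[<] 1)
        (𝓝 (2 * Real.log 2)) := by
      have := cl.tendsto.mono_left (nhdsWithin_le_nhds (s := Set.Iio 1))
      norm_num at this; exact this
    have h := (b0.add a1).div_const 2
    have e1 : (2 * Real.log 2 + 0) / 2 = Real.log 2 := by ring
    rw [e1] at h
    refine h.congr (fun s => ?_)
    simp only [Dn, Function.comp_apply, Real.rpow_one]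
  have hc : ∀ j, b1 (2 * (j + 1)) 1 = nu j 0 := by
    intro j
    have := b1_nu j 0
    simpa using this
  have h := tail_bound (fun j => b1 (2 * j) 1) (fun x => Dn (√x)) 2 (Real.log 2)
    (fun x hx0 hx1 => by
      have hsx : |√x| < 1 := by
        rw [abs_of_nonneg (Real.sqrt_nonneg x)]
        rw [Real.sqrt_lt' one_pos]; simpa using hx1
      have := hsum (√x) hsx
      rwa [Real.sq_sqrt hx0] at this) (fun j hj => by
      obtain ⟨i, rfl⟩ : ∃ i, j = i + 1 := ⟨j - 1, by omega⟩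
      simp only [hc]; exact nu0_nonneg i) (hlim.comp tend_sqrt) (s ^ 2) (by positivity)
      (by nlinarith)
  have v1 : b1 (2 * 1) 1 = 1 / 2 := by
    have := hc 0; simp only [zero_add] at this; rw [this]; simp [nu]
  have v2 : b1 (2 * 2) 1 = 1 / 12 := by
    have := hc 1; norm_num at this; norm_num; rw [this]; simp [nu]; norm_num
  have v0 : b1 (2 * 0) 1 = 0 := by simp [b1]
  simp only [Finset.sum_range_succ, Finset.sum_range_zero, v0, v1, v2, Real.sqrt_sq hs0] at h
  linarith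

lemma nuneg_nonneg (e : ℝ) (h0 : 0 < e) (h1 : e < 1) (j : ℕ) : 0 ≤ nu j (-e) := by
  induction j with
  | zero => simp only [nu]; linarith
  | succ j ih =>
    rw [nu]
    have hj : (0:ℝ) ≤ j := by positivity
    have : 0 ≤ (2 * (j:ℝ) + 1 - -e) := by linarith
    have : 0 ≤ (2 * (j:ℝ) + 2 - -e) := by linarith
    positivity

/-- upper bound of `mm` -/
lemma mm_le (e s : ℝ) (h0 : 0 < e) (h1 : e < 1) (hs0 : 0 ≤ s) (hs1 : s < 1) :
    mm e s ≤ 1 - e * (1 - e) / 2 * s ^ 2 := by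
  have hs : |s| < 1 := by rwa [abs_of_nonneg hs0]
  have hs' : |-s| < 1 := by simpa using hs
  have h := hasSum_even (fun k => bb k (1 - e)) s _ _ (hasSum_bb (1 - e) s hs)
    (hasSum_bb (1 - e) (-s) hs')
  have e1 : mm e s = ((1 + s) ^ (1 - e) + (1 + -s) ^ (1 - e)) / 2 := by
    rw [mm, ← sub_eq_add_neg]
  rw [← e1] at h
  have hc : ∀ j, bb (2 * (j + 1)) (1 - e) = -(e * nu j (-e)) := by
    intro j
    have := bb_nu j (-e)
    rw [← sub_eq_add_neg] at this
    rw [this]; ring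
  have h2 := h.neg
  have h3 := sum_le_hasSum (range 2) (fun j hj => by
    rw [Finset.mem_range, not_lt] at hj
    obtain ⟨i, rfl⟩ : ∃ i, j = i + 1 := ⟨j - 1, by omega⟩
    simp only [hc]
    have := nuneg_nonneg e h0 h1 i
    have h5 : 0 ≤ (s ^ 2) ^ (i + 1) := by positivity
    have : 0 ≤ e * nu i (-e) * (s ^ 2) ^ (i + 1) := by positivity
    linarith) h2
  have v1 : bb (2 * 1) (1 - e) = -(e * (1 - e) / 2) := by
    have := hc 0; simp only [zero_add] at this; rw [this]; simp only [nu]; ring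
  have v0 : bb (2 * 0) (1 - e) = 1 := by simp [bb]
  simp only [Finset.sum_range_succ, Finset.sum_range_zero, v0, v1] at h3
  linarith

lemma mm_nonneg (e s : ℝ) (hs0 : 0 ≤ s) (hs1 : s < 1) : 0 ≤ mm e s := by
  rw [mm]
  have : 0 ≤ (1 + s) ^ (1 - e) := Real.rpow_nonneg (by linarith) _
  have : 0 ≤ (1 - s) ^ (1 - e) := Real.rpow_nonneg (by linarith) _
  linarith

end Pool.Agent.H58.Tal.M5
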