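import Pool.Agent.H3.Tal.Series

/-! Coefficients `T_j` of `TT e s` as a power series in `t = s²`. -/

set_option autoImplicit false

open Finset Real Filter Topology

namespace Pool.Agent.H58.Tal.M5

/-- `C(1+e,2j+2) = e ν_j(e)` and the derivatives of `ν_j` -/
noncomputable def nu : ℕ → ℝ → ℝ
  | 0, e => (1 + e) / 2
  | j + 1, e => nu j e * (((2 * j + 1 - e) * (2 * j + 2 - e)) / ((2 * j + 3) * (2 * j + 4)))
noncomputable def nu1 : ℕ → ℝ → ℝ
  | 0, _ => 1 / 2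
  | j + 1, e => nu1 j e * (((2 * j + 1 - e) * (2 * j + 2 - e)) / ((2 * j + 3) * (2 * j + 4)))
      - nu j e * ((4 * j + 3 - 2 * e) / ((2 * j + 3) * (2 * j + 4)))
noncomputable def nu2 : ℕ → ℝ → ℝ
  | 0, _ => 0
  | j + 1, e => nu2 j e * (((2 * j + 1 - e) * (2 * j + 2 - e)) / ((2 * j + 3) * (2 * j + 4)))
      - 2 * nu1 j e * ((4 * j + 3 - 2 * e) / ((2 * j + 3) * (2 * j + 4)))
      + nu j e * (2 / ((2 * j + 3) * (2 * j + 4)))

lemma bb_nu (j : ℕ) (e : ℝ) : bb (2 * (j + 1)) (1 + e) = e * nu j e := by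
  induction j with
  | zero => simp [bb, nu]; ring
  | succ j ih =>
    have e1 : 2 * (j + 1 + 1) = 2 * (j + 1) + 1 + 1 := by ring
    rw [e1, bb, bb, ih, nu]
    push_cast
    have h1 : (2 * (j : ℝ) + 3) ≠ 0 := by positivity
    have h2 : (2 * (j : ℝ) + 4) ≠ 0 := by positivity
    have h3 : (2 * ((j : ℝ) + 1) + 1) ≠ 0 := by positivity
    have h4 : (2 * ((j : ℝ) + 1) + 1 + 1) ≠ 0 := by positivity
    field_simp
    ring

lemma b1_nu (j : ℕ) (e : ℝ) : b1 (2 * (j + 1)) (1 + e) = nu j e + e * nu1 j e := by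
  induction j with
  | zero => simp [bb, b1, nu, nu1]; ring
  | succ j ih =>
    have e1 : 2 * (j + 1 + 1) = 2 * (j + 1) + 1 + 1 := by ring
    rw [e1, b1, bb, b1, ih, bb_nu, nu, nu1]
    push_cast
    have h1 : (2 * (j : ℝ) + 3) ≠ 0 := by positivity
    have h2 : (2 * (j : ℝ) + 4) ≠ 0 := by positivity
    have h3 : (2 * ((j : ℝ) + 1) + 1) ≠ 0 := by positivity
    have h4 : (2 * ((j : ℝ) + 1) + 1 + 1) ≠ 0 := by positivity
    field_simp
    ring

lemma b2_nu (j : ℕ) (e : ℝ) : b2 (2 * (j + 1)) (1 + e) = 2 * nu1 j e + e * nu2 j e := by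
  induction j with
  | zero => simp [bb, b1, b2, nu1, nu2]; norm_num
  | succ j ih =>
    have e1 : 2 * (j + 1 + 1) = 2 * (j + 1) + 1 + 1 := by ring
    rw [e1, b2, b1, b2, ih, b1_nu, bb_nu, nu1, nu2]
    push_cast
    have h1 : (2 * (j : ℝ) + 3) ≠ 0 := by positivity
    have h2 : (2 * (j : ℝ) + 4) ≠ 0 := by positivity
    have h3 : (2 * ((j : ℝ) + 1) + 1) ≠ 0 := by positivity
    have h4 : (2 * ((j : ℝ) + 1) + 1 + 1) ≠ 0 := by positivity
    field_simp
    ring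

/-- `A = C₁ e - C₂` -/
noncomputable def AA (e : ℝ) : ℝ :=
  (Real.log 2 ^ 2 + c1 e * Real.log 2 + c2 e) * e - (2 * Real.log 2 + c1 e)

/-- coefficients of `TT` : `Tn j` is the coefficient of `t^(j+1)` -/
noncomputable def Tn (e : ℝ) (j : ℕ) : ℝ :=
  AA e * nu j e + (2 - 2 * Real.log 2 * e - e * c1 e) * nu1 j e + e * nu2 j e

noncomputable def Tc (e : ℝ) : ℕ → ℝ
  | 0 => (1 + e) * Real.log 2 ^ 2
  | j + 1 => Tn e j

lemma hasSum_TT (e s : ℝ) (h0 : 0 < e) (h1 : e < 1) (hs : |s| < 1) :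
    HasSum (fun j => Tc e j * (s ^ 2) ^ j) (TT e s) := by
  have hs' : |-s| < 1 := by simpa using hs
  have hN := hasSum_even (fun k => bb k (1 + e)) s _ _ (hasSum_bb (1 + e) s hs)
    (hasSum_bb (1 + e) (-s) hs')
  have hN1 := hasSum_even (fun k => b1 k (1 + e)) s _ _
    (hasSum_b1 (1 + e) s (by linarith) (by linarith) hs)
    (hasSum_b1 (1 + e) (-s) (by linarith) (by linarith) hs')
  have hN2 := hasSum_even (fun k => b2 k (1 + e)) s _ _
    (hasSum_b2 (1 + e) s (by linarith) (by linarith) hs)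
    (hasSum_b2 (1 + e) (-s) (by linarith) (by linarith) hs')
  have h := (((hN.sub (hasSum_ite_eq (0 : ℕ) (1 : ℝ))).mul_left
    (Real.log 2 ^ 2 + c1 e * Real.log 2 + c2 e)).sub
    (hN1.mul_left (2 * Real.log 2 + c1 e))).add hN2
  have h' := h.add (hasSum_ite_eq (0 : ℕ) ((1 + e) * Real.log 2 ^ 2))
  have e1 : (Real.log 2 ^ 2 + c1 e * Real.log 2 + c2 e) *
      (((1 + s) ^ (1 + e) + (1 + -s) ^ (1 + e)) / 2 - 1) -
      (2 * Real.log 2 + c1 e) *
        (((1 + s) ^ (1 + e) * Real.log (1 + s) + (1 + -s) ^ (1 + e) * Real.log (1 + -s)) / 2) +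
      ((1 + s) ^ (1 + e) * Real.log (1 + s) ^ 2 + (1 + -s) ^ (1 + e) * Real.log (1 + -s) ^ 2) / 2
      + (1 + e) * Real.log 2 ^ 2 = TT e s := by
    rw [TT, Nv, nn1, nn2, ← sub_eq_add_neg]; ring
  rw [e1] at h'
  refine h'.congr_fun ?_
  intro j
  cases j with
  | zero => simp [Tc, bb, b1, b2]
  | succ j =>
    simp only [Tc, Tn, AA, Nat.add_eq_zero_iff, one_ne_zero, and_false, if_false]
    rw [bb_nu, b1_nu, b2_nu]
    ring

/-- positivity of the coefficients `T_j`, `j ≥ 2` -/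
lemma Tn_nonneg (e : ℝ) (h0 : 0 < e) (h1 : e < 1) (ha : 2 ≤ 2 * Real.log 2 * e + e * c1 e)
    (hT : 0 ≤ Tn e 1) (j : ℕ) (hj : 1 ≤ j) : 0 ≤ Tn e j ∧ 0 ≤ nu j e ∧ nu1 j e ≤ 0 := by
  induction j, hj using Nat.le_induction with
  | base =>
    refine ⟨hT, ?_, ?_⟩
    · simp only [nu, Nat.cast_zero]
      have : 0 ≤ (2 * (0:ℝ) + 1 - e) := by linarith
      have : 0 ≤ (2 * (0:ℝ) + 2 - e) := by linarith
      positivity
    · simp only [nu, nu1, Nat.cast_zero]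
      nlinarith
  | succ j hj ih =>
    obtain ⟨ih1, ih2, ih3⟩ := ih
    have hj1 : (1 : ℝ) ≤ j := by exact_mod_cast hj
    set g : ℝ := ((2 * j + 1 - e) * (2 * j + 2 - e)) / ((2 * j + 3) * (2 * j + 4)) with hg
    set g1 : ℝ := (4 * j + 3 - 2 * e) / ((2 * j + 3) * (2 * j + 4)) with hg1
    set g2 : ℝ := 2 / ((2 * j + 3) * (2 * j + 4)) with hg2
    have hgp : 0 ≤ g := by
      have : 0 ≤ (2 * (j:ℝ) + 1 - e) := by linarith
      have : 0 ≤ (2 * (j:ℝ) + 2 - e) := by linarith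
      positivity
    have hg1p : 0 ≤ g1 := by
      have : 0 ≤ (4 * (j:ℝ) + 3 - 2 * e) := by linarith
      positivity
    have hg2p : 0 ≤ g2 := by positivity
    have en : nu (j + 1) e = nu j e * g := rfl
    have en1 : nu1 (j + 1) e = nu1 j e * g - nu j e * g1 := rfl
    have en2 : nu2 (j + 1) e = nu2 j e * g - 2 * nu1 j e * g1 + nu j e * g2 := rfl
    refine ⟨?_, ?_, ?_⟩
    · have key : Tn e (j + 1) = Tn e j * g + (2 * Real.log 2 * e + e * c1 e - 2) * (nu j e * g1)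
          + e * (2 * (-nu1 j e) * g1 + nu j e * g2) := by
        rw [Tn, Tn, en, en1, en2]; ring
      rw [key]
      have h2 : 0 ≤ 2 * Real.log 2 * e + e * c1 e - 2 := by linarith
      have h3 : 0 ≤ -nu1 j e := by linarith
      positivity
    · rw [en]; positivity
    · rw [en1]
      have h3 : 0 ≤ -nu1 j e := by linarith
      nlinarith [mul_nonneg h3 hgp, mul_nonneg ih2 hg1p]

end Pool.Agent.H58.Tal.M5
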