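import Pool.Agent.H3.Tal.PolyDefs
import Pool.Agent.H3.Tal.Bounds

/-! Generated polynomial identities (module M5). -/

set_option autoImplicit false
set_option maxRecDepth 100000
set_option linter.all false

namespace Pool.Agent.H58.Tal.M5

noncomputable def GG (e : ℝ) : ℝ := gg e * (1 + e)
/-- `a * GG` -/
noncomputable def aGG (e k : ℝ) : ℝ := k * gg e * GG e + 2 * e * GG e - e ^ 2 * gg' e * (1 + e) - 2 * e ^ 2 * gg e
noncomputable def That (e t a : ℝ) (j : ℕ) : ℝ :=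
  (a * t / 2 + a * t ^ 2 * e / 12 - 2 * t + t ^ 2 * e - t * e + t ^ 2 * e ^ 2 / 2 - t ^ 3 * e ^ 3 / 12) * nu j e
    + (2 - 2 * t * e - a) * nu1 j e + e * nu2 j e

lemma GP_eq (e : ℝ) : GG e = GP e := by
  simp only [GG, gg, GP]; ring

lemma nu_0 (e : ℝ) : nu 0 e = (1/2) + (1/2)*e := by
  simp only [nu, nu1, nu2]
  try (push_cast; ring)
lemma nu1_0 (e : ℝ) : nu1 0 e = (1/2) := by
  simp only [nu, nu1, nu2]
  try (push_cast; ring)
lemma nu2_0 (e : ℝ) : nu2 0 e = 0 := by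
  simp only [nu, nu1, nu2]
  try (push_cast; ring)
lemma nu_1 (e : ℝ) : nu 1 e = (1/12) + (-1/24)*e + (-1/12)*e^2 + (1/24)*e^3 := by
  simp only [nu, nu1, nu2]
  try (push_cast; ring)
lemma nu1_1 (e : ℝ) : nu1 1 e = (-1/24) + (-1/6)*e + (1/8)*e^2 := by
  simp only [nu, nu1, nu2]
  try (push_cast; ring)
lemma nu2_1 (e : ℝ) : nu2 1 e = (-1/6) + (1/4)*e := by
  simp only [nu, nu1, nu2]
  try (push_cast; ring)
lemma nu_2 (e : ℝ) : nu 2 e = (1/30) + (-13/360)*e + (-1/48)*e^2 + (5/144)*e^3 + (-1/80)*e^4 + (1/720)*e^5 := by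
  simp only [nu, nu1, nu2]
  try (push_cast; ring)
lemma nu1_2 (e : ℝ) : nu1 2 e = (-13/360) + (-1/24)*e + (5/48)*e^2 + (-1/20)*e^3 + (1/144)*e^4 := by
  simp only [nu, nu1, nu2]
  try (push_cast; ring)
lemma nu2_2 (e : ℝ) : nu2 2 e = (-1/24) + (5/24)*e + (-3/20)*e^2 + (1/36)*e^3 := by
  simp only [nu, nu1, nu2]
  try (push_cast; ring)
lemma nu_3 (e : ℝ) : nu 3 e = (1/56) + (-29/1120)*e + (-1/288)*e^2 + (127/5760)*e^3 + (-1/72)*e^4 + (11/2880)*e^5 + (-1/2016)*e^6 + (1/40320)*e^7 := by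
  simp only [nu, nu1, nu2]
  try (push_cast; ring)
lemma nu1_3 (e : ℝ) : nu1 3 e = (-29/1120) + (-1/144)*e + (127/1920)*e^2 + (-1/18)*e^3 + (11/576)*e^4 + (-1/336)*e^5 + (1/5760)*e^6 := by
  simp only [nu, nu1, nu2]
  try (push_cast; ring)
lemma nu2_3 (e : ℝ) : nu2 3 e = (-1/144) + (127/960)*e + (-1/6)*e^2 + (11/144)*e^3 + (-5/336)*e^4 + (1/960)*e^5 := by
  simp only [nu, nu1, nu2]
  try (push_cast; ring)
lemma nu_4 (e : ℝ) : nu 4 e = (1/90) + (-481/25200)*e + (61/25920)*e^2 + (1271/90720)*e^3 + (-427/34560)*e^4 + (853/172800)*e^5 + (-19/17280)*e^6 + (17/120960)*e^7 + (-1/103680)*e^8 + (1/3628800)*e^9 := by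
  simp only [nu, nu1, nu2]
  try (push_cast; ring)
lemma nu1_4 (e : ℝ) : nu1 4 e = (-481/25200) + (61/12960)*e + (1271/30240)*e^2 + (-427/8640)*e^3 + (853/34560)*e^4 + (-19/2880)*e^5 + (17/17280)*e^6 + (-1/12960)*e^7 + (1/403200)*e^8 := by
  simp only [nu, nu1, nu2]
  try (push_cast; ring)
lemma nu2_4 (e : ℝ) : nu2 4 e = (61/12960) + (1271/15120)*e + (-427/2880)*e^2 + (853/8640)*e^3 + (-19/576)*e^4 + (17/2880)*e^5 + (-7/12960)*e^6 + (1/50400)*e^7 := by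
  simp only [nu, nu1, nu2]
  try (push_cast; ring)
lemma nu_5 (e : ℝ) : nu 5 e = (1/132) + (-4861/332640)*e + (2683/604800)*e^2 + (98729/10886400)*e^3 + (-1681/161280)*e^4 + (9145/1741824)*e^5 + (-179/115200)*e^6 + (4231/14515200)*e^7 + (-17/483840)*e^8 + (23/8709120)*e^9 + (-1/8870400)*e^10 + (1/479001600)*e^11 := by
  simp only [nu, nu1, nu2]
  try (push_cast; ring)
lemma nu1_5 (e : ℝ) : nu1 5 e = (-4861/332640) + (2683/302400)*e + (98729/3628800)*e^2 + (-1681/40320)*e^3 + (45725/1741824)*e^4 + (-179/19200)*e^5 + (4231/2073600)*e^6 + (-17/60480)*e^7 + (23/967680)*e^8 + (-1/887040)*e^9 + (1/43545600)*e^10 := by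
  simp only [nu, nu1, nu2]
  try (push_cast; ring)
lemma nu2_5 (e : ℝ) : nu2 5 e = (2683/302400) + (98729/1814400)*e + (-1681/13440)*e^2 + (45725/435456)*e^3 + (-179/3840)*e^4 + (4231/345600)*e^5 + (-17/8640)*e^6 + (23/120960)*e^7 + (-1/98560)*e^8 + (1/4354560)*e^9 := by
  simp only [nu, nu1, nu2]
  try (push_cast; ring)
lemma GT_0 (e t a k : ℝ) (hk : k * t = 2 * k - 4) (ha : a * GG e = aGG e k) :
    That e t a 0 * GG e = gp1 e t k := by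
  rw [That, nu_0, nu1_0, nu2_0]
  rw [aGG] at ha
  simp only [GG, gg, gg', gp1] at ha ⊢
  linear_combination (((1/2) + (1/2)*e) * (t / 2 + t ^ 2 * e / 12) - ((1/2))) * ha + ((1 - (21 / 20) * e + (59 / 100) * e ^ 2 - (11 / 50) * e ^ 3) * ((1 - (21 / 20) * e + (59 / 100) * e ^ 2 - (11 / 50) * e ^ 3) * (1 + e)) * ((1/2) + (1/2)*e) * (1 / 2 + e / 12 * t + e / 6)) * hk
lemma GT_1 (e t a k : ℝ) (hk : k * t = 2 * k - 4) (ha : a * GG e = aGG e k) :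
    That e t a 1 * GG e = gp2 e t k := by
  rw [That, nu_1, nu1_1, nu2_1]
  rw [aGG] at ha
  simp only [GG, gg, gg', gp2] at ha ⊢
  linear_combination (((1/12) + (-1/24)*e + (-1/12)*e^2 + (1/24)*e^3) * (t / 2 + t ^ 2 * e / 12) - ((-1/24) + (-1/6)*e + (1/8)*e^2)) * ha + ((1 - (21 / 20) * e + (59 / 100) * e ^ 2 - (11 / 50) * e ^ 3) * ((1 - (21 / 20) * e + (59 / 100) * e ^ 2 - (11 / 50) * e ^ 3) * (1 + e)) * ((1/12) + (-1/24)*e + (-1/12)*e^2 + (1/24)*e^3) * (1 / 2 + e / 12 * t + e / 6)) * hk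
lemma GT_2 (e t a k : ℝ) (hk : k * t = 2 * k - 4) (ha : a * GG e = aGG e k) :
    That e t a 2 * GG e = gp3 e t k := by
  rw [That, nu_2, nu1_2, nu2_2]
  rw [aGG] at ha
  simp only [GG, gg, gg', gp3] at ha ⊢
  linear_combination (((1/30) + (-13/360)*e + (-1/48)*e^2 + (5/144)*e^3 + (-1/80)*e^4 + (1/720)*e^5) * (t / 2 + t ^ 2 * e / 12) - ((-13/360) + (-1/24)*e + (5/48)*e^2 + (-1/20)*e^3 + (1/144)*e^4)) * ha + ((1 - (21 / 20) * e + (59 / 100) * e ^ 2 - (11 / 50) * e ^ 3) * ((1 - (21 / 20) * e + (59 / 100) * e ^ 2 - (11 / 50) * e ^ 3) * (1 + e)) * ((1/30) + (-13/360)*e + (-1/48)*e^2 + (5/144)*e^3 + (-1/80)*e^4 + (1/720)*e^5) * (1 / 2 + e / 12 * t + e / 6)) * hk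
lemma GT_3 (e t a k : ℝ) (hk : k * t = 2 * k - 4) (ha : a * GG e = aGG e k) :
    That e t a 3 * GG e = gp4 e t k := by
  rw [That, nu_3, nu1_3, nu2_3]
  rw [aGG] at ha
  simp only [GG, gg, gg', gp4] at ha ⊢
  linear_combination (((1/56) + (-29/1120)*e + (-1/288)*e^2 + (127/5760)*e^3 + (-1/72)*e^4 + (11/2880)*e^5 + (-1/2016)*e^6 + (1/40320)*e^7) * (t / 2 + t ^ 2 * e / 12) - ((-29/1120) + (-1/144)*e + (127/1920)*e^2 + (-1/18)*e^3 + (11/576)*e^4 + (-1/336)*e^5 + (1/5760)*e^6)) * ha + ((1 - (21 / 20) * e + (59 / 100) * e ^ 2 - (11 / 50) * e ^ 3) * ((1 - (21 / 20) * e + (59 / 100) * e ^ 2 - (11 / 50) * e ^ 3) * (1 + e)) * ((1/56) + (-29/1120)*e + (-1/288)*e^2 + (127/5760)*e^3 + (-1/72)*e^4 + (11/2880)*e^5 + (-1/2016)*e^6 + (1/40320)*e^7) * (1 / 2 + e / 12 * t + e / 6)) * hk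
lemma GT_4 (e t a k : ℝ) (hk : k * t = 2 * k - 4) (ha : a * GG e = aGG e k) :
    That e t a 4 * GG e = gp5 e t k := by
  rw [That, nu_4, nu1_4, nu2_4]
  rw [aGG] at ha
  simp only [GG, gg, gg', gp5] at ha ⊢
  linear_combination (((1/90) + (-481/25200)*e + (61/25920)*e^2 + (1271/90720)*e^3 + (-427/34560)*e^4 + (853/172800)*e^5 + (-19/17280)*e^6 + (17/120960)*e^7 + (-1/103680)*e^8 + (1/3628800)*e^9) * (t / 2 + t ^ 2 * e / 12) - ((-481/25200) + (61/12960)*e + (1271/30240)*e^2 + (-427/8640)*e^3 + (853/34560)*e^4 + (-19/2880)*e^5 + (17/17280)*e^6 + (-1/12960)*e^7 + (1/403200)*e^8)) * ha + ((1 - (21 / 20) * e + (59 / 100) * e ^ 2 - (11 / 50) * e ^ 3) * ((1 - (21 / 20) * e + (59 / 100) * e ^ 2 - (11 / 50) * e ^ 3) * (1 + e)) * ((1/90) + (-481/25200)*e + (61/25920)*e^2 + (1271/90720)*e^3 + (-427/34560)*e^4 + (853/172800)*e^5 + (-19/17280)*e^6 + (17/120960)*e^7 + (-1/103680)*e^8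 + (1/3628800)*e^9) * (1 / 2 + e / 12 * t + e / 6)) * hk
lemma GT_5 (e t a k : ℝ) (hk : k * t = 2 * k - 4) (ha : a * GG e = aGG e k) :
    That e t a 5 * GG e = gp6 e t k := by
  rw [That, nu_5, nu1_5, nu2_5]
  rw [aGG] at ha
  simp only [GG, gg, gg', gp6] at ha ⊢
  linear_combination (((1/132) + (-4861/332640)*e + (2683/604800)*e^2 + (98729/10886400)*e^3 + (-1681/161280)*e^4 + (9145/1741824)*e^5 + (-179/115200)*e^6 + (4231/14515200)*e^7 + (-17/483840)*e^8 + (23/8709120)*e^9 + (-1/8870400)*e^10 + (1/479001600)*e^11) * (t / 2 + t ^ 2 * e / 12) - ((-4861/332640) + (2683/302400)*e + (98729/3628800)*e^2 + (-1681/40320)*e^3 + (45725/1741824)*e^4 + (-179/19200)*e^5 + (4231/2073600)*e^6 + (-17/60480)*e^7 + (23/967680)*e^8 + (-1/887040)*e^9 + (1/43545600)*e^10)) * ha + ((1 - (21 / 20) * e + (59 / 100) * e ^ 2 - (11 / 50) * e ^ 3) * ((1 - (21 / 20) * e + (59 / 100) * e ^ 2 - (11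 / 50) * e ^ 3) * (1 + e)) * ((1/132) + (-4861/332640)*e + (2683/604800)*e^2 + (98729/10886400)*e^3 + (-1681/161280)*e^4 + (9145/1741824)*e^5 + (-179/115200)*e^6 + (4231/14515200)*e^7 + (-17/483840)*e^8 + (23/8709120)*e^9 + (-1/8870400)*e^10 + (1/479001600)*e^11) * (1 / 2 + e / 12 * t + e / 6)) * hk

end Pool.Agent.H58.Tal.M5
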