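import Mathlib

/-! Generated polynomial inequality (module M5). -/

set_option autoImplicit false
set_option maxRecDepth 100000
set_option linter.all false

namespace Pool.Agent.H58.Tal.M5


lemma Q_0 (e t k : ℝ) (he : 0 ≤ e)
    (ht : 0.693147180 ≤ t) (ht' : t ≤ 0.693147181) (hu : 0.480453013 ≤ t ^ 2) (hu' : t ^ 2 ≤ 0.480453015)
    (hv : 0.333024650 ≤ t ^ 3) (hv' : t ^ 3 ≤ 0.333024653) (hk : 3.0607884 ≤ k) (hk' : k ≤ 3.0607885) :
    0 ≤ e ^ 1 * ((77/60) + (7/6)*t + (-2/3)*k - (5147/100000)) + e ^ 2 * ((-1219/1200) + (41/240)*t + (-5/6)*t^2 + (17/30)*k - (2729/6250)) + e ^ 3 * ((3811/6000) + (-2083/2400)*t + (-361/480)*t^2 + (1/24)*t^3 + (37/600)*k - (-2503/20000)) + e ^ 4 * ((-1317/5000) + (867/2000)*t + (153/400)*t^2 + (19/480)*t^3 + (-1731/4000)*k - (-109053/100000)) + e ^ 5 * ((-1153/15000) + (-3427/30000)*t + (51/800)*t^2 + (-17/800)*t^3 + (28721/60000)*k - (8329/6250)) + e ^ 6 * ((1399/6000)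 + (-4921/15000)*t + (-1/10)*t^2 + (-3/800)*t^3 + (-13331/60000)*k - (-72359/100000)) + e ^ 7 * ((-497/10000) + (1131/20000)*t + (11/80)*t^2 + (1/160)*t^3 + (981/20000)*k - (2597/12500)) + e ^ 8 * ((-11/1875) + (-407/15000)*t + (-11/1200)*t^3 + (11/3750)*k - (-469/25000)) + e ^ 9 * ((121/7500) + (121/15000)*t + (-121/15000)*k - (-149/50000)) := by
  have q1 := mul_nonneg (pow_nonneg he 1) (show (0:ℝ) ≤ ((77/60) + (7/6)*t + (-2/3)*k - (5147/100000)) by linarith only [ht, ht', hu, hu', hv, hv', hk, hk'])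
  have q2 := mul_nonneg (pow_nonneg he 2) (show (0:ℝ) ≤ ((-1219/1200) + (41/240)*t + (-5/6)*t^2 + (17/30)*k - (2729/6250)) by linarith only [ht, ht', hu, hu', hv, hv', hk, hk'])
  have q3 := mul_nonneg (pow_nonneg he 3) (show (0:ℝ) ≤ ((3811/6000) + (-2083/2400)*t + (-361/480)*t^2 + (1/24)*t^3 + (37/600)*k - (-2503/20000)) by linarith only [ht, ht', hu, hu', hv, hv', hk, hk'])
  have q4 := mul_nonneg (pow_nonneg he 4) (show (0:ℝ) ≤ ((-1317/5000) + (867/2000)*t + (153/400)*t^2 + (19/480)*t^3 + (-1731/4000)*k - (-109053/100000)) by linarith only [ht, ht', hu, hu', hv, hv', hk, hk'])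
  have q5 := mul_nonneg (pow_nonneg he 5) (show (0:ℝ) ≤ ((-1153/15000) + (-3427/30000)*t + (51/800)*t^2 + (-17/800)*t^3 + (28721/60000)*k - (8329/6250)) by linarith only [ht, ht', hu, hu', hv, hv', hk, hk'])
  have q6 := mul_nonneg (pow_nonneg he 6) (show (0:ℝ) ≤ ((1399/6000) + (-4921/15000)*t + (-1/10)*t^2 + (-3/800)*t^3 + (-13331/60000)*k - (-72359/100000)) by linarith only [ht, ht', hu, hu', hv, hv', hk, hk'])
  have q7 := mul_nonneg (pow_nonneg he 7) (show (0:ℝ) ≤ ((-497/10000) + (1131/20000)*t + (11/80)*t^2 + (1/160)*t^3 + (981/20000)*k - (2597/12500)) by linarith only [ht, ht', hu, hu', hv, hv', hk, hk'])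
  have q8 := mul_nonneg (pow_nonneg he 8) (show (0:ℝ) ≤ ((-11/1875) + (-407/15000)*t + (-11/1200)*t^3 + (11/3750)*k - (-469/25000)) by linarith only [ht, ht', hu, hu', hv, hv', hk, hk'])
  have q9 := mul_nonneg (pow_nonneg he 9) (show (0:ℝ) ≤ ((121/7500) + (121/15000)*t + (-121/15000)*k - (-149/50000)) by linarith only [ht, ht', hu, hu', hv, hv', hk, hk'])
  exact (add_nonneg (add_nonneg (add_nonneg (add_nonneg (add_nonneg (add_nonneg (add_nonneg (add_nonneg q1 q2) q3) q4) q5) q6) q7) q8) q9)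

lemma R_0 (e : ℝ) (he : 0 ≤ e) (he1 : 0 ≤ 1 - e) :
    0 ≤ (5147/100000)*e^1*(1-e)^8 + (2121/2500)*e^2*(1-e)^7 + (437249/100000)*e^3*(1-e)^6 + (1021033/100000)*e^4*(1-e)^5 + (322201/25000)*e^5*(1-e)^4 + (936339/100000)*e^6*(1-e)^3 + (48261/12500)*e^7*(1-e)^2 + (20531/25000)*e^8*(1-e)^1 + (27/400)*e^9*(1-e)^0 := by
  positivity

end Pool.Agent.H58.Tal.M5
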