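import Mathlib

/-! Generated polynomial inequality (module M5). -/

set_option autoImplicit false
set_option maxRecDepth 100000
set_option linter.all false

namespace Pool.Agent.H58.Tal.M5


lemma Q_1 (e t k : ℝ) (he : 0 ≤ e)
    (ht : 0.693147180 ≤ t) (ht' : t ≤ 0.693147181) (hu : 0.480453013 ≤ t ^ 2) (hu' : t ^ 2 ≤ 0.480453015)
    (hv : 0.333024650 ≤ t ^ 3) (hv' : t ^ 3 ≤ 0.333024653) (hk : 3.0607884 ≤ k) (hk' : k ≤ 3.0607885) :
    0 ≤ e ^ 0 * ((1/12) + (-1/48)*k - (489/25000)) + e ^ 1 * ((212/135) + (265/216)*t + (-1/72)*t^2 + (-3371/4320)*k - (2567/100000)) + e ^ 2 * ((-31919/21600) + (43/1728)*t + (-4027/4320)*t^2 + (134423/172800)*k - (23633/50000)) + e ^ 3 * ((440461/432000) + (-6401/8640)*t + (-71333/86400)*t^2 + (43/864)*t^3 + (-39359/432000)*k - (-15291/100000)) + e ^ 4 * ((-486221/1080000) + (513337/864000)*t + (64837/172800)*t^2 + (727/17280)*t^3 + (-489311/1080000)*k - (-30771/25000)) + e ^ 5 * ((-72713/2160000) + (-1344659/4320000)*t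 + (1697/34560)*t^2 + (-4541/172800)*t^3 + (2742323/4320000)*k - (170839/100000)) + e ^ 6 * ((56131/216000) + (-302417/1080000)*t + (-5213/57600)*t^2 + (7/3456)*t^3 + (-1636351/4320000)*k - (-113643/100000)) + e ^ 7 * ((-187523/2160000) + (9443/135000)*t + (8357/57600)*t^2 + (169/28800)*t^3 + (304567/2160000)*k - (4649/10000)) + e ^ 8 * ((2953/135000) + (-308333/4320000)*t + (139/28800)*t^2 + (-209/17280)*t^3 + (-14849/540000)*k - (-2837/25000)) + e ^ 9 * ((32771/2160000) + (80027/4320000)*t + (77/28800)*t^2 + (101/57600)*t^3 + (-19703/4320000)*k - (1591/100000)) + e ^ 10 * ((-1397/540000) + (-1969/540000)*t + (-77/86400)*t^3 + (1397/1080000)*k - (-73/50000)) + e ^ 11 * ((847/540000) + (847/1080000)*t + (-847/1080000)*k - (-3/10000)) := by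
  have q0 := mul_nonneg (pow_nonneg he 0) (show (0:ℝ) ≤ ((1/12) + (-1/48)*k - (489/25000)) by linarith only [ht, ht', hu, hu', hv, hv', hk, hk'])
  have q1 := mul_nonneg (pow_nonneg he 1) (show (0:ℝ) ≤ ((212/135) + (265/216)*t + (-1/72)*t^2 + (-3371/4320)*k - (2567/100000)) by linarith only [ht, ht', hu, hu', hv, hv', hk, hk'])
  have q2 := mul_nonneg (pow_nonneg he 2) (show (0:ℝ) ≤ ((-31919/21600) + (43/1728)*t + (-4027/4320)*t^2 + (134423/172800)*k - (23633/50000)) by linarith only [ht, ht', hu, hu', hv, hv', hk, hk'])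
  have q3 := mul_nonneg (pow_nonneg he 3) (show (0:ℝ) ≤ ((440461/432000) + (-6401/8640)*t + (-71333/86400)*t^2 + (43/864)*t^3 + (-39359/432000)*k - (-15291/100000)) by linarith only [ht, ht', hu, hu', hv, hv', hk, hk'])
  have q4 := mul_nonneg (pow_nonneg he 4) (show (0:ℝ) ≤ ((-486221/1080000) + (513337/864000)*t + (64837/172800)*t^2 + (727/17280)*t^3 + (-489311/1080000)*k - (-30771/25000)) by linarith only [ht, ht', hu, hu', hv, hv', hk, hk'])
  have q5 := mul_nonneg (pow_nonneg he 5) (show (0:ℝ) ≤ ((-72713/2160000) + (-1344659/4320000)*t + (1697/34560)*t^2 + (-4541/172800)*t^3 + (2742323/4320000)*k - (170839/100000)) by linarith only [ht, ht', hu, hu', hv, hv', hk, hk'])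
  have q6 := mul_nonneg (pow_nonneg he 6) (show (0:ℝ) ≤ ((56131/216000) + (-302417/1080000)*t + (-5213/57600)*t^2 + (7/3456)*t^3 + (-1636351/4320000)*k - (-113643/100000)) by linarith only [ht, ht', hu, hu', hv, hv', hk, hk'])
  have q7 := mul_nonneg (pow_nonneg he 7) (show (0:ℝ) ≤ ((-187523/2160000) + (9443/135000)*t + (8357/57600)*t^2 + (169/28800)*t^3 + (304567/2160000)*k - (4649/10000)) by linarith only [ht, ht', hu, hu', hv, hv', hk, hk'])
  have q8 := mul_nonneg (pow_nonneg he 8) (show (0:ℝ) ≤ ((2953/135000) + (-308333/4320000)*t + (139/28800)*t^2 + (-209/17280)*t^3 + (-14849/540000)*k - (-2837/25000)) by linarith only [ht, ht', hu, hu', hv, hv', hk, hk'])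
  have q9 := mul_nonneg (pow_nonneg he 9) (show (0:ℝ) ≤ ((32771/2160000) + (80027/4320000)*t + (77/28800)*t^2 + (101/57600)*t^3 + (-19703/4320000)*k - (1591/100000)) by linarith only [ht, ht', hu, hu', hv, hv', hk, hk'])
  have q10 := mul_nonneg (pow_nonneg he 10) (show (0:ℝ) ≤ ((-1397/540000) + (-1969/540000)*t + (-77/86400)*t^3 + (1397/1080000)*k - (-73/50000)) by linarith only [ht, ht', hu, hu', hv, hv', hk, hk'])
  have q11 := mul_nonneg (pow_nonneg he 11) (show (0:ℝ) ≤ ((847/540000) + (847/1080000)*t + (-847/1080000)*k - (-3/10000)) by linarith only [ht, ht', hu, hu', hv, hv', hk, hk'])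
  exact (add_nonneg (add_nonneg (add_nonneg (add_nonneg (add_nonneg (add_nonneg (add_nonneg (add_nonneg (add_nonneg (add_nonneg (add_nonneg q0 q1) q2) q3) q4) q5) q6) q7) q8) q9) q10) q11)

lemma R_1 (e : ℝ) (he : 0 ≤ e) (he1 : 0 ≤ 1 - e) :
    0 ≤ (489/25000)*e^0*(1-e)^11 + (24083/100000)*e^1*(1-e)^10 + (45129/25000)*e^2*(1-e)^9 + (424179/50000)*e^3*(1-e)^8 + (602421/25000)*e^4*(1-e)^7 + (4294189/100000)*e^5*(1-e)^6 + (4976403/100000)*e^6*(1-e)^5 + (475327/12500)*e^7*(1-e)^4 + (37837/2000)*e^8*(1-e)^3 + (584401/100000)*e^9*(1-e)^2 + (20087/20000)*e^10*(1-e)^1 + (7167/100000)*e^11*(1-e)^0 := by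
  positivity

end Pool.Agent.H58.Tal.M5
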