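import Pool.Agent.H3.Tal.PolyDefs
import Pool.Agent.H3.Tal.PolyQ1

/-! Generated polynomial inequality (module M5). -/

set_option autoImplicit false
set_option maxRecDepth 100000
set_option linter.all false

namespace Pool.Agent.H58.Tal.M5


set_option maxHeartbeats 4000000 in
lemma B_1 (e t k : ℝ) (he : 0 ≤ e) (he1 : e ≤ 1)
    (ht : 0.693147180 ≤ t) (ht' : t ≤ 0.693147181) (hu : 0.480453013 ≤ t ^ 2) (hu' : t ^ 2 ≤ 0.480453015)
    (hv : 0.333024650 ≤ t ^ 3) (hv' : t ^ 3 ≤ 0.333024653) (hk : 3.0607884 ≤ k) (hk' : k ≤ 3.0607885) :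
    0 ≤ Bx1 e t (GP e) (gp1 e t k) (gp2 e t k) (gp3 e t k) (gp4 e t k) (gp5 e t k) (gp6 e t k) := by
  have h := add_nonneg (Q_1 e t k he ht ht' hu hu' hv hv' hk hk') (R_1 e he (by linarith))
  refine le_of_le_of_eq h ?_
  simp only [Bx1, GP, gp1, gp2, gp3, gp4, gp5, gp6]
  ring

end Pool.Agent.H58.Tal.M5
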