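import Mathlib

/-! Generated polynomial inequality (module M5). -/

set_option autoImplicit false
set_option maxRecDepth 100000
set_option linter.all false

namespace Pool.Agent.H58.Tal.M5


lemma Q_2 (e t k : ℝ) (he : 0 ≤ e)
    (ht : 0.693147180 ≤ t) (ht' : t ≤ 0.693147181) (hu : 0.480453013 ≤ t ^ 2) (hu' : t ^ 2 ≤ 0.480453015)
    (hv : 0.333024650 ≤ t ^ 3) (hv' : t ^ 3 ≤ 0.333024653) (hk : 3.0607884 ≤ k) (hk' : k ≤ 3.0607885) :
    0 ≤ e ^ 0 * ((29/135) + (37/450)*t + (-2/15)*t^2 + (-59/1080)*k - (4053/100000)) + e ^ 1 * ((8839/4500) + (4111/3000)*t + (-73/450)*t^2 + (-5029/5400)*k - (-1439/100000)) + e ^ 2 * ((-3497489/1620000) + (-44369/202500)*t + (-13483/13500)*t^2 + (1399043/1296000)*k - (51347/100000)) + e ^ 3 * ((26531467/16200000) + (-864337/1620000)*t + (-1482079/1620000)*t^2 + (331/5400)*t^3 + (-4354351/12960000)*k - (-449/2500)) + e ^ 4 * ((-15717311/20250000) + (3215293/4050000)*t + (363013/1080000)*t^2 + (14617/324000)*t^3 + (-28897951/64800000)*k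 - (-28287/20000)) + e ^ 5 * ((1143481/27000000) + (-32972371/54000000)*t + (82519/1296000)*t^2 + (-107411/3240000)*t^3 + (1420787/1687500)*k - (6924/3125)) + e ^ 6 * ((610853/2025000) + (-29513473/162000000)*t + (-161119/2160000)*t^2 + (23059/2160000)*t^3 + (-99459647/162000000)*k - (-21701/12500)) + e ^ 7 * ((-71371/500000) + (34219/500000)*t + (979283/6480000)*t^2 + (2977/648000)*t^3 + (31905083/108000000)*k - (88303/100000)) + e ^ 8 * ((1691599/27000000) + (-583501/4500000)*t + (30559/2160000)*t^2 + (-51877/3240000)*t^3 + (-9621493/108000000)*k - (-5969/20000)) + e ^ 9 * ((15929/1350000) + (1978187/54000000)*t + (137/24000)*t^2 + (14441/3240000)*t^3 + (471521/54000000)*k - (6813/100000)) + e ^ 10 * ((-84763/16200000) + (-1802807/162000000)*t + (-113/1080000)*t^2 + (-15667/6480000)*t^3 + (163049/162000000)*k - (-1073/100000)) + e ^ 11 * ((81443/20250000) + (25979/10125000)*t + (11/135000)*t^2 + (89/648000)*t^3 + (-4523/2531250)*k - (41/100000)) + e ^ 12 *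 ((-1529/6750000) + (-2497/13500000)*t + (-11/405000)*t^3 + (1529/13500000)*k - (-3/100000)) + e ^ 13 * ((121/2531250) + (121/5062500)*t + (-121/5062500)*k - (-1/50000)) := by
  have q0 := mul_nonneg (pow_nonneg he 0) (show (0:ℝ) ≤ ((29/135) + (37/450)*t + (-2/15)*t^2 + (-59/1080)*k - (4053/100000)) by linarith only [ht, ht', hu, hu', hv, hv', hk, hk'])
  have q1 := mul_nonneg (pow_nonneg he 1) (show (0:ℝ) ≤ ((8839/4500) + (4111/3000)*t + (-73/450)*t^2 + (-5029/5400)*k - (-1439/100000)) by linarith only [ht, ht', hu, hu', hv, hv', hk, hk'])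
  have q2 := mul_nonneg (pow_nonneg he 2) (show (0:ℝ) ≤ ((-3497489/1620000) + (-44369/202500)*t + (-13483/13500)*t^2 + (1399043/1296000)*k - (51347/100000)) by linarith only [ht, ht', hu, hu', hv, hv', hk, hk'])
  have q3 := mul_nonneg (pow_nonneg he 3) (show (0:ℝ) ≤ ((26531467/16200000) + (-864337/1620000)*t + (-1482079/1620000)*t^2 + (331/5400)*t^3 + (-4354351/12960000)*k - (-449/2500)) by linarith only [ht, ht', hu, hu', hv, hv', hk, hk'])
  have q4 := mul_nonneg (pow_nonneg he 4) (show (0:ℝ) ≤ ((-15717311/20250000) + (3215293/4050000)*t + (363013/1080000)*t^2 + (14617/324000)*t^3 + (-28897951/64800000)*k - (-28287/20000)) by linarith only [ht, ht', hu, hu', hv, hv', hk, hk'])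
  have q5 := mul_nonneg (pow_nonneg he 5) (show (0:ℝ) ≤ ((1143481/27000000) + (-32972371/54000000)*t + (82519/1296000)*t^2 + (-107411/3240000)*t^3 + (1420787/1687500)*k - (6924/3125)) by linarith only [ht, ht', hu, hu', hv, hv', hk, hk'])
  have q6 := mul_nonneg (pow_nonneg he 6) (show (0:ℝ) ≤ ((610853/2025000) + (-29513473/162000000)*t + (-161119/2160000)*t^2 + (23059/2160000)*t^3 + (-99459647/162000000)*k - (-21701/12500)) by linarith only [ht, ht', hu, hu', hv, hv', hk, hk'])
  have q7 := mul_nonneg (pow_nonneg he 7) (show (0:ℝ) ≤ ((-71371/500000) + (34219/500000)*t + (979283/6480000)*t^2 + (2977/648000)*t^3 + (31905083/108000000)*k - (88303/100000)) by linarith only [ht, ht', hu, hu', hv, hv', hk, hk'])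
  have q8 := mul_nonneg (pow_nonneg he 8) (show (0:ℝ) ≤ ((1691599/27000000) + (-583501/4500000)*t + (30559/2160000)*t^2 + (-51877/3240000)*t^3 + (-9621493/108000000)*k - (-5969/20000)) by linarith only [ht, ht', hu, hu', hv, hv', hk, hk'])
  have q9 := mul_nonneg (pow_nonneg he 9) (show (0:ℝ) ≤ ((15929/1350000) + (1978187/54000000)*t + (137/24000)*t^2 + (14441/3240000)*t^3 + (471521/54000000)*k - (6813/100000)) by linarith only [ht, ht', hu, hu', hv, hv', hk, hk'])
  have q10 := mul_nonneg (pow_nonneg he 10) (show (0:ℝ) ≤ ((-84763/16200000) + (-1802807/162000000)*t + (-113/1080000)*t^2 + (-15667/6480000)*t^3 + (163049/162000000)*k - (-1073/100000)) by linarith only [ht, ht', hu, hu', hv, hv', hk, hk'])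
  have q11 := mul_nonneg (pow_nonneg he 11) (show (0:ℝ) ≤ ((81443/20250000) + (25979/10125000)*t + (11/135000)*t^2 + (89/648000)*t^3 + (-4523/2531250)*k - (41/100000)) by linarith only [ht, ht', hu, hu', hv, hv', hk, hk'])
  have q12 := mul_nonneg (pow_nonneg he 12) (show (0:ℝ) ≤ ((-1529/6750000) + (-2497/13500000)*t + (-11/405000)*t^3 + (1529/13500000)*k - (-3/100000)) by linarith only [ht, ht', hu, hu', hv, hv', hk, hk'])
  have q13 := mul_nonneg (pow_nonneg he 13) (show (0:ℝ) ≤ ((121/2531250) + (121/5062500)*t + (-121/5062500)*k - (-1/50000)) by linarith only [ht, ht', hu, hu', hv, hv', hk, hk'])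
  exact (add_nonneg (add_nonneg (add_nonneg (add_nonneg (add_nonneg (add_nonneg (add_nonneg (add_nonneg (add_nonneg (add_nonneg (add_nonneg (add_nonneg (add_nonneg q0 q1) q2) q3) q4) q5) q6) q7) q8) q9) q10) q11) q12) q13)

lemma R_2 (e : ℝ) (he : 0 ≤ e) (he1 : 0 ≤ 1 - e) :
    0 ≤ (4053/100000)*e^0*(1-e)^13 + (41/80)*e^1*(1-e)^12 + (350213/100000)*e^2*(1-e)^11 + (1611041/100000)*e^3*(1-e)^10 + (1016873/20000)*e^4*(1-e)^9 + (5558307/50000)*e^5*(1-e)^8 + (8555923/50000)*e^6*(1-e)^7 + (18772437/100000)*e^7*(1-e)^6 + (367853/2500)*e^8*(1-e)^5 + (8153303/100000)*e^9*(1-e)^4 + (310441/10000)*e^10*(1-e)^3 + (191829/25000)*e^11*(1-e)^2 + (27429/25000)*e^12*(1-e)^1 + (169/2500)*e^13*(1-e)^0 := by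
  positivity

end Pool.Agent.H58.Tal.M5
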