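import Mathlib

/-! Generated polynomial inequality (module M5). -/

set_option autoImplicit false
set_option maxRecDepth 100000
set_option linter.all false

namespace Pool.Agent.H58.Tal.M5


lemma Q_3 (e t k : ℝ) (he : 0 ≤ e)
    (ht : 0.693147180 ≤ t) (ht' : t ≤ 0.693147181) (hu : 0.480453013 ≤ t ^ 2) (hu' : t ^ 2 ≤ 0.480453015)
    (hv : 0.333024650 ≤ t ^ 3) (hv' : t ^ 3 ≤ 0.333024653) (hk : 3.0607884 ≤ k) (hk' : k ≤ 3.0607885) :
    0 ≤ e ^ 0 * ((731/1800) + (121/336)*t + (-1/2)*t^2 + (-3263/28800)*k - (6871/100000)) + e ^ 1 * ((180613/72000) + (3809/2240)*t + (-1837/3360)*t^2 + (-2303839/2016000)*k - (-7331/100000)) + e ^ 2 * ((-194529691/60480000) + (-794737/1209600)*t + (-10153/10080)*t^2 + (372265001/241920000)*k - (55413/100000)) + e ^ 3 * ((326951929/120960000) + (-4327559/24192000)*t + (-6237683/6048000)*t^2 + (3181/40320)*t^3 + (-455677633/604800000)*k - (-9819/50000)) + e ^ 4 * ((-1684245491/1209600000) + (254167867/241920000)*t + (19213919/80640000)*t^2 + (14801/302400)*t^3 + (-8998319167/24192000000)*k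 - (-167187/100000)) + e ^ 5 * ((2460270137/12096000000) + (-2643133267/2419200000)*t + (10683959/80640000)*t^2 + (-2087563/48384000)*t^3 + (6808448833/6048000000)*k - (2941/1000)) + e ^ 6 * ((2236126087/6048000000) + (39403217/3456000000)*t + (-15379747/322560000)*t^2 + (1482881/60480000)*t^3 + (-3414227219/3456000000)*k - (-266091/100000)) + e ^ 7 * ((-68220443/288000000) + (46120769/1612800000)*t + (16416299/107520000)*t^2 + (1394203/967680000)*t^3 + (183924127/322560000)*k - (40051/25000)) + e ^ 8 * ((390595949/3024000000) + (-4986213247/24192000000)*t + (29529/896000)*t^2 + (-10390397/483840000)*t^3 + (-1050344587/4838400000)*k - (-16737/25000)) + e ^ 9 * ((6521033/2016000000) + (542680627/8064000000)*t + (521813/60480000)*t^2 + (2857949/322560000)*t^3 + (375787627/8064000000)*k - (499/2500)) + e ^ 10 * ((-45683207/6048000000) + (-636005911/24192000000)*t + (-78703/322560000)*t^2 + (-2507069/483840000)*t^3 + (-123240983/24192000000)*k - (-2161/50000)) + e ^ 11 * ((9605221/1209600000) + (163460149/24192000000)*t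 + (106453/322560000)*t^2 + (589937/967680000)*t^3 + (-58176301/24192000000)*k - (281/50000)) + e ^ 12 * ((-5670853/6048000000) + (-3187259/3456000000)*t + (-2633/161280000)*t^2 + (-67663/483840000)*t^3 + (4284589/12096000000)*k - (-7/12500)) + e ^ 13 * ((609/2560000) + (388541/2688000000)*t + (319/161280000)*t^2 + (7673/967680000)*t^3 + (-42287/384000000)*k - (-1/100000)) + e ^ 14 * ((-913/67200000) + (-4301/504000000)*t + (-319/483840000)*t^3 + (913/134400000)*k - (-1/100000)) + e ^ 15 * ((3509/3024000000) + (3509/6048000000)*t + (-3509/6048000000)*k - (-1/100000)) := by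
  have q0 := mul_nonneg (pow_nonneg he 0) (show (0:ℝ) ≤ ((731/1800) + (121/336)*t + (-1/2)*t^2 + (-3263/28800)*k - (6871/100000)) by linarith only [ht, ht', hu, hu', hv, hv', hk, hk'])
  have q1 := mul_nonneg (pow_nonneg he 1) (show (0:ℝ) ≤ ((180613/72000) + (3809/2240)*t + (-1837/3360)*t^2 + (-2303839/2016000)*k - (-7331/100000)) by linarith only [ht, ht', hu, hu', hv, hv', hk, hk'])
  have q2 := mul_nonneg (pow_nonneg he 2) (show (0:ℝ) ≤ ((-194529691/60480000) + (-794737/1209600)*t + (-10153/10080)*t^2 + (372265001/241920000)*k - (55413/100000)) by linarith only [ht, ht', hu, hu', hv, hv', hk, hk'])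
  have q3 := mul_nonneg (pow_nonneg he 3) (show (0:ℝ) ≤ ((326951929/120960000) + (-4327559/24192000)*t + (-6237683/6048000)*t^2 + (3181/40320)*t^3 + (-455677633/604800000)*k - (-9819/50000)) by linarith only [ht, ht', hu, hu', hv, hv', hk, hk'])
  have q4 := mul_nonneg (pow_nonneg he 4) (show (0:ℝ) ≤ ((-1684245491/1209600000) + (254167867/241920000)*t + (19213919/80640000)*t^2 + (14801/302400)*t^3 + (-8998319167/24192000000)*k - (-167187/100000)) by linarith only [ht, ht', hu, hu', hv, hv', hk, hk'])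
  have q5 := mul_nonneg (pow_nonneg he 5) (show (0:ℝ) ≤ ((2460270137/12096000000) + (-2643133267/2419200000)*t + (10683959/80640000)*t^2 + (-2087563/48384000)*t^3 + (6808448833/6048000000)*k - (2941/1000)) by linarith only [ht, ht', hu, hu', hv, hv', hk, hk'])
  have q6 := mul_nonneg (pow_nonneg he 6) (show (0:ℝ) ≤ ((2236126087/6048000000) + (39403217/3456000000)*t + (-15379747/322560000)*t^2 + (1482881/60480000)*t^3 + (-3414227219/3456000000)*k - (-266091/100000)) by linarith only [ht, ht', hu, hu', hv, hv', hk, hk'])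
  have q7 := mul_nonneg (pow_nonneg he 7) (show (0:ℝ) ≤ ((-68220443/288000000) + (46120769/1612800000)*t + (16416299/107520000)*t^2 + (1394203/967680000)*t^3 + (183924127/322560000)*k - (40051/25000)) by linarith only [ht, ht', hu, hu', hv, hv', hk, hk'])
  have q8 := mul_nonneg (pow_nonneg he 8) (show (0:ℝ) ≤ ((390595949/3024000000) + (-4986213247/24192000000)*t + (29529/896000)*t^2 + (-10390397/483840000)*t^3 + (-1050344587/4838400000)*k - (-16737/25000)) by linarith only [ht, ht', hu, hu', hv, hv', hk, hk'])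
  have q9 := mul_nonneg (pow_nonneg he 9) (show (0:ℝ) ≤ ((6521033/2016000000) + (542680627/8064000000)*t + (521813/60480000)*t^2 + (2857949/322560000)*t^3 + (375787627/8064000000)*k - (499/2500)) by linarith only [ht, ht', hu, hu', hv, hv', hk, hk'])
  have q10 := mul_nonneg (pow_nonneg he 10) (show (0:ℝ) ≤ ((-45683207/6048000000) + (-636005911/24192000000)*t + (-78703/322560000)*t^2 + (-2507069/483840000)*t^3 + (-123240983/24192000000)*k - (-2161/50000)) by linarith only [ht, ht', hu, hu', hv, hv', hk, hk'])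
  have q11 := mul_nonneg (pow_nonneg he 11) (show (0:ℝ) ≤ ((9605221/1209600000) + (163460149/24192000000)*t + (106453/322560000)*t^2 + (589937/967680000)*t^3 + (-58176301/24192000000)*k - (281/50000)) by linarith only [ht, ht', hu, hu', hv, hv', hk, hk'])
  have q12 := mul_nonneg (pow_nonneg he 12) (show (0:ℝ) ≤ ((-5670853/6048000000) + (-3187259/3456000000)*t + (-2633/161280000)*t^2 + (-67663/483840000)*t^3 + (4284589/12096000000)*k - (-7/12500)) by linarith only [ht, ht', hu, hu', hv, hv', hk, hk'])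
  have q13 := mul_nonneg (pow_nonneg he 13) (show (0:ℝ) ≤ ((609/2560000) + (388541/2688000000)*t + (319/161280000)*t^2 + (7673/967680000)*t^3 + (-42287/384000000)*k - (-1/100000)) by linarith only [ht, ht', hu, hu', hv, hv', hk, hk'])
  have q14 := mul_nonneg (pow_nonneg he 14) (show (0:ℝ) ≤ ((-913/67200000) + (-4301/504000000)*t + (-319/483840000)*t^3 + (913/134400000)*k - (-1/100000)) by linarith only [ht, ht', hu, hu', hv, hv', hk, hk'])
  have q15 := mul_nonneg (pow_nonneg he 15) (show (0:ℝ) ≤ ((3509/3024000000) + (3509/6048000000)*t + (-3509/6048000000)*k - (-1/100000)) by linarith only [ht, ht', hu, hu', hv, hv', hk, hk'])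
  exact (add_nonneg (add_nonneg (add_nonneg (add_nonneg (add_nonneg (add_nonneg (add_nonneg (add_nonneg (add_nonneg (add_nonneg (add_nonneg (add_nonneg (add_nonneg (add_nonneg (add_nonneg q0 q1) q2) q3) q4) q5) q6) q7) q8) q9) q10) q11) q12) q13) q14) q15)

lemma R_3 (e : ℝ) (he : 0 ≤ e) (he1 : 0 ≤ 1 - e) :
    0 ≤ (6871/100000)*e^0*(1-e)^15 + (47867/50000)*e^1*(1-e)^14 + (337117/50000)*e^2*(1-e)^13 + (631983/20000)*e^3*(1-e)^12 + (5314901/50000)*e^4*(1-e)^11 + (5260467/20000)*e^5*(1-e)^10 + (12123063/25000)*e^6*(1-e)^9 + (67209643/100000)*e^7*(1-e)^8 + (70346003/100000)*e^8*(1-e)^7 + (13880889/25000)*e^9*(1-e)^6 + (409331/1250)*e^10*(1-e)^5 + (2830269/20000)*e^11*(1-e)^4 + (135203/3125)*e^12*(1-e)^3 + (439783/50000)*e^13*(1-e)^2 + (105491/100000)*e^14*(1-e)^1 + (2767/50000)*e^15*(1-e)^0 := by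
  positivity

end Pool.Agent.H58.Tal.M5
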