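import Mathlib

/-! Generated polynomial inequalities (module M5). -/

set_option autoImplicit false
set_option maxRecDepth 100000
set_option linter.all false

namespace Pool.Agent.H58.Tal.M5

lemma Q_0 (e t k : ℝ) (he : 0 ≤ e)
    (ht : 0.693147180 ≤ t) (ht' : t ≤ 0.693147181) (hu : 0.480453013 ≤ t ^ 2) (hu' : t ^ 2 ≤ 0.480453015)
    (hv : 0.333024650 ≤ t ^ 3) (hv' : t ^ 3 ≤ 0.333024653) (hk : 3.0607884 ≤ k) (hk' : k ≤ 3.0607885) :
    0 ≤ e ^ 1 * ((77/60) + (7/6)*t + (-2/3)*k - (5147/100000)) + e ^ 2 * ((-1219/1200) + (41/240)*t + (-5/6)*t^2 + (17/30)*k - (2729/6250)) + e ^ 3 * ((3811/6000) + (-2083/2400)*t + (-361/480)*t^2 + (1/24)*t^3 + (37/600)*k - (-2503/20000)) + e ^ 4 * ((-1317/5000) + (867/2000)*t + (153/400)*t^2 + (19/480)*t^3 + (-1731/4000)*k - (-109053/100000)) + e ^ 5 * ((-1153/15000) + (-3427/30000)*t + (51/800)*t^2 + (-17/800)*t^3 + (28721/60000)*k - (8329/6250)) + e ^ 6 * ((1399/6000) + (-4921/15000)*t + (-1/10)*t^2 + (-3/800)*t^3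 + (-13331/60000)*k - (-72359/100000)) + e ^ 7 * ((-497/10000) + (1131/20000)*t + (11/80)*t^2 + (1/160)*t^3 + (981/20000)*k - (2597/12500)) + e ^ 8 * ((-11/1875) + (-407/15000)*t + (-11/1200)*t^3 + (11/3750)*k - (-469/25000)) + e ^ 9 * ((121/7500) + (121/15000)*t + (-121/15000)*k - (-149/50000)) := by
  have q1 := mul_nonneg (pow_nonneg he 1) (show (0:ℝ) ≤ ((77/60) + (7/6)*t + (-2/3)*k - (5147/100000)) by linarith only [ht, ht', hu, hu', hv, hv', hk, hk'])
  have q2 := mul_nonneg (pow_nonneg he 2) (show (0:ℝ) ≤ ((-1219/1200) + (41/240)*t + (-5/6)*t^2 + (17/30)*k - (2729/6250)) by linarith only [ht, ht', hu, hu', hv, hv', hk, hk'])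
  have q3 := mul_nonneg (pow_nonneg he 3) (show (0:ℝ) ≤ ((3811/6000) + (-2083/2400)*t + (-361/480)*t^2 + (1/24)*t^3 + (37/600)*k - (-2503/20000)) by linarith only [ht, ht', hu, hu', hv, hv', hk, hk'])
  have q4 := mul_nonneg (pow_nonneg he 4) (show (0:ℝ) ≤ ((-1317/5000) + (867/2000)*t + (153/400)*t^2 + (19/480)*t^3 + (-1731/4000)*k - (-109053/100000)) by linarith only [ht, ht', hu, hu', hv, hv', hk, hk'])
  have q5 := mul_nonneg (pow_nonneg he 5) (show (0:ℝ) ≤ ((-1153/15000) + (-3427/30000)*t + (51/800)*t^2 + (-17/800)*t^3 + (28721/60000)*k - (8329/6250)) by linarith only [ht, ht', hu, hu', hv, hv', hk, hk'])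
  have q6 := mul_nonneg (pow_nonneg he 6) (show (0:ℝ) ≤ ((1399/6000) + (-4921/15000)*t + (-1/10)*t^2 + (-3/800)*t^3 + (-13331/60000)*k - (-72359/100000)) by linarith only [ht, ht', hu, hu', hv, hv', hk, hk'])
  have q7 := mul_nonneg (pow_nonneg he 7) (show (0:ℝ) ≤ ((-497/10000) + (1131/20000)*t + (11/80)*t^2 + (1/160)*t^3 + (981/20000)*k - (2597/12500)) by linarith only [ht, ht', hu, hu', hv, hv', hk, hk'])
  have q8 := mul_nonneg (pow_nonneg he 8) (show (0:ℝ) ≤ ((-11/1875) + (-407/15000)*t + (-11/1200)*t^3 + (11/3750)*k - (-469/25000)) by linarith only [ht, ht', hu, hu', hv, hv', hk, hk'])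
  have q9 := mul_nonneg (pow_nonneg he 9) (show (0:ℝ) ≤ ((121/7500) + (121/15000)*t + (-121/15000)*k - (-149/50000)) by linarith only [ht, ht', hu, hu', hv, hv', hk, hk'])
  exact (add_nonneg (add_nonneg (add_nonneg (add_nonneg (add_nonneg (add_nonneg (add_nonneg (add_nonneg q1 q2) q3) q4) q5) q6) q7) q8) q9)

lemma R_0 (e : ℝ) (he : 0 ≤ e) (he1 : 0 ≤ 1 - e) :
    0 ≤ (5147/100000)*e^1*(1-e)^8 + (2121/2500)*e^2*(1-e)^7 + (437249/100000)*e^3*(1-e)^6 + (1021033/100000)*e^4*(1-e)^5 + (322201/25000)*e^5*(1-e)^4 + (936339/100000)*e^6*(1-e)^3 + (48261/12500)*e^7*(1-e)^2 + (20531/25000)*e^8*(1-e)^1 + (27/400)*e^9*(1-e)^0 := by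
  positivity

lemma Q_1 (e t k : ℝ) (he : 0 ≤ e)
    (ht : 0.693147180 ≤ t) (ht' : t ≤ 0.693147181) (hu : 0.480453013 ≤ t ^ 2) (hu' : t ^ 2 ≤ 0.480453015)
    (hv : 0.333024650 ≤ t ^ 3) (hv' : t ^ 3 ≤ 0.333024653) (hk : 3.0607884 ≤ k) (hk' : k ≤ 3.0607885) :
    0 ≤ e ^ 0 * ((1/12) + (-1/48)*k - (489/25000)) + e ^ 1 * ((212/135) + (265/216)*t + (-1/72)*t^2 + (-3371/4320)*k - (2567/100000)) + e ^ 2 * ((-31919/21600) + (43/1728)*t + (-4027/4320)*t^2 + (134423/172800)*k - (23633/50000)) + e ^ 3 * ((440461/432000) + (-6401/8640)*t + (-71333/86400)*t^2 + (43/864)*t^3 + (-39359/432000)*k - (-15291/100000)) + e ^ 4 * ((-486221/1080000) + (513337/864000)*t + (64837/172800)*t^2 + (727/17280)*t^3 + (-489311/1080000)*k - (-30771/25000)) + e ^ 5 * ((-72713/2160000) + (-1344659/4320000)*t + (1697/34560)*t^2 + (-4541/172800)*t^3 + (2742323/4320000)*k - (170839/100000)) + e ^ 6 * ((56131/216000) + (-302417/1080000)*t + (-5213/57600)*t^2 + (7/3456)*t^3 + (-1636351/4320000)*k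 - (-113643/100000)) + e ^ 7 * ((-187523/2160000) + (9443/135000)*t + (8357/57600)*t^2 + (169/28800)*t^3 + (304567/2160000)*k - (4649/10000)) + e ^ 8 * ((2953/135000) + (-308333/4320000)*t + (139/28800)*t^2 + (-209/17280)*t^3 + (-14849/540000)*k - (-2837/25000)) + e ^ 9 * ((32771/2160000) + (80027/4320000)*t + (77/28800)*t^2 + (101/57600)*t^3 + (-19703/4320000)*k - (1591/100000)) + e ^ 10 * ((-1397/540000) + (-1969/540000)*t + (-77/86400)*t^3 + (1397/1080000)*k - (-73/50000)) + e ^ 11 * ((847/540000) + (847/1080000)*t + (-847/1080000)*k - (-3/10000)) := by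
  have q0 := mul_nonneg (pow_nonneg he 0) (show (0:ℝ) ≤ ((1/12) + (-1/48)*k - (489/25000)) by linarith only [ht, ht', hu, hu', hv, hv', hk, hk'])
  have q1 := mul_nonneg (pow_nonneg he 1) (show (0:ℝ) ≤ ((212/135) + (265/216)*t + (-1/72)*t^2 + (-3371/4320)*k - (2567/100000)) by linarith only [ht, ht', hu, hu', hv, hv', hk, hk'])
  have q2 := mul_nonneg (pow_nonneg he 2) (show (0:ℝ) ≤ ((-31919/21600) + (43/1728)*t + (-4027/4320)*t^2 + (134423/172800)*k - (23633/50000)) by linarith only [ht, ht', hu, hu', hv, hv', hk, hk'])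
  have q3 := mul_nonneg (pow_nonneg he 3) (show (0:ℝ) ≤ ((440461/432000) + (-6401/8640)*t + (-71333/86400)*t^2 + (43/864)*t^3 + (-39359/432000)*k - (-15291/100000)) by linarith only [ht, ht', hu, hu', hv, hv', hk, hk'])
  have q4 := mul_nonneg (pow_nonneg he 4) (show (0:ℝ) ≤ ((-486221/1080000) + (513337/864000)*t + (64837/172800)*t^2 + (727/17280)*t^3 + (-489311/1080000)*k - (-30771/25000)) by linarith only [ht, ht', hu, hu', hv, hv', hk, hk'])
  have q5 := mul_nonneg (pow_nonneg he 5) (show (0:ℝ) ≤ ((-72713/2160000) + (-1344659/4320000)*t + (1697/34560)*t^2 + (-4541/172800)*t^3 + (2742323/4320000)*k - (170839/100000)) by linarith only [ht, ht', hu, hu', hv, hv', hk, hk'])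
  have q6 := mul_nonneg (pow_nonneg he 6) (show (0:ℝ) ≤ ((56131/216000) + (-302417/1080000)*t + (-5213/57600)*t^2 + (7/3456)*t^3 + (-1636351/4320000)*k - (-113643/100000)) by linarith only [ht, ht', hu, hu', hv, hv', hk, hk'])
  have q7 := mul_nonneg (pow_nonneg he 7) (show (0:ℝ) ≤ ((-187523/2160000) + (9443/135000)*t + (8357/57600)*t^2 + (169/28800)*t^3 + (304567/2160000)*k - (4649/10000)) by linarith only [ht, ht', hu, hu', hv, hv', hk, hk'])
  have q8 := mul_nonneg (pow_nonneg he 8) (show (0:ℝ) ≤ ((2953/135000) + (-308333/4320000)*t + (139/28800)*t^2 + (-209/17280)*t^3 + (-14849/540000)*k - (-2837/25000)) by linarith only [ht, ht', hu, hu', hv, hv', hk, hk'])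
  have q9 := mul_nonneg (pow_nonneg he 9) (show (0:ℝ) ≤ ((32771/2160000) + (80027/4320000)*t + (77/28800)*t^2 + (101/57600)*t^3 + (-19703/4320000)*k - (1591/100000)) by linarith only [ht, ht', hu, hu', hv, hv', hk, hk'])
  have q10 := mul_nonneg (pow_nonneg he 10) (show (0:ℝ) ≤ ((-1397/540000) + (-1969/540000)*t + (-77/86400)*t^3 + (1397/1080000)*k - (-73/50000)) by linarith only [ht, ht', hu, hu', hv, hv', hk, hk'])
  have q11 := mul_nonneg (pow_nonneg he 11) (show (0:ℝ) ≤ ((847/540000) + (847/1080000)*t + (-847/1080000)*k - (-3/10000)) by linarith only [ht, ht', hu, hu', hv, hv', hk, hk'])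
  exact (add_nonneg (add_nonneg (add_nonneg (add_nonneg (add_nonneg (add_nonneg (add_nonneg (add_nonneg (add_nonneg (add_nonneg (add_nonneg q0 q1) q2) q3) q4) q5) q6) q7) q8) q9) q10) q11)

lemma R_1 (e : ℝ) (he : 0 ≤ e) (he1 : 0 ≤ 1 - e) :
    0 ≤ (489/25000)*e^0*(1-e)^11 + (24083/100000)*e^1*(1-e)^10 + (45129/25000)*e^2*(1-e)^9 + (424179/50000)*e^3*(1-e)^8 + (602421/25000)*e^4*(1-e)^7 + (4294189/100000)*e^5*(1-e)^6 + (4976403/100000)*e^6*(1-e)^5 + (475327/12500)*e^7*(1-e)^4 + (37837/2000)*e^8*(1-e)^3 + (584401/100000)*e^9*(1-e)^2 + (20087/20000)*e^10*(1-e)^1 + (7167/100000)*e^11*(1-e)^0 := by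
  positivity

lemma Q_2 (e t k : ℝ) (he : 0 ≤ e)
    (ht : 0.693147180 ≤ t) (ht' : t ≤ 0.693147181) (hu : 0.480453013 ≤ t ^ 2) (hu' : t ^ 2 ≤ 0.480453015)
    (hv : 0.333024650 ≤ t ^ 3) (hv' : t ^ 3 ≤ 0.333024653) (hk : 3.0607884 ≤ k) (hk' : k ≤ 3.0607885) :
    0 ≤ e ^ 0 * ((29/135) + (37/450)*t + (-2/15)*t^2 + (-59/1080)*k - (4053/100000)) + e ^ 1 * ((8839/4500) + (4111/3000)*t + (-73/450)*t^2 + (-5029/5400)*k - (-1439/100000)) + e ^ 2 * ((-3497489/1620000) + (-44369/202500)*t + (-13483/13500)*t^2 + (1399043/1296000)*k - (51347/100000)) + e ^ 3 * ((26531467/16200000) + (-864337/1620000)*t + (-1482079/1620000)*t^2 + (331/5400)*t^3 + (-4354351/12960000)*k - (-449/2500)) + e ^ 4 * ((-15717311/20250000) + (3215293/4050000)*t + (363013/1080000)*t^2 + (14617/324000)*t^3 + (-28897951/64800000)*k - (-28287/20000)) + e ^ 5 * ((1143481/27000000) + (-32972371/54000000)*t + (82519/1296000)*t^2 + (-107411/3240000)*t^3 + (1420787/1687500)*k - (6924/3125)) + e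 ^ 6 * ((610853/2025000) + (-29513473/162000000)*t + (-161119/2160000)*t^2 + (23059/2160000)*t^3 + (-99459647/162000000)*k - (-21701/12500)) + e ^ 7 * ((-71371/500000) + (34219/500000)*t + (979283/6480000)*t^2 + (2977/648000)*t^3 + (31905083/108000000)*k - (88303/100000)) + e ^ 8 * ((1691599/27000000) + (-583501/4500000)*t + (30559/2160000)*t^2 + (-51877/3240000)*t^3 + (-9621493/108000000)*k - (-5969/20000)) + e ^ 9 * ((15929/1350000) + (1978187/54000000)*t + (137/24000)*t^2 + (14441/3240000)*t^3 + (471521/54000000)*k - (6813/100000)) + e ^ 10 * ((-84763/16200000) + (-1802807/162000000)*t + (-113/1080000)*t^2 + (-15667/6480000)*t^3 + (163049/162000000)*k - (-1073/100000)) + e ^ 11 * ((81443/20250000) + (25979/10125000)*t + (11/135000)*t^2 + (89/648000)*t^3 + (-4523/2531250)*k - (41/100000)) + e ^ 12 * ((-1529/6750000) + (-2497/13500000)*t + (-11/405000)*t^3 + (1529/13500000)*k - (-3/100000)) + e ^ 13 * ((121/2531250) + (121/5062500)*t + (-121/5062500)*k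 - (-1/50000)) := by
  have q0 := mul_nonneg (pow_nonneg he 0) (show (0:ℝ) ≤ ((29/135) + (37/450)*t + (-2/15)*t^2 + (-59/1080)*k - (4053/100000)) by linarith only [ht, ht', hu, hu', hv, hv', hk, hk'])
  have q1 := mul_nonneg (pow_nonneg he 1) (show (0:ℝ) ≤ ((8839/4500) + (4111/3000)*t + (-73/450)*t^2 + (-5029/5400)*k - (-1439/100000)) by linarith only [ht, ht', hu, hu', hv, hv', hk, hk'])
  have q2 := mul_nonneg (pow_nonneg he 2) (show (0:ℝ) ≤ ((-3497489/1620000) + (-44369/202500)*t + (-13483/13500)*t^2 + (1399043/1296000)*k - (51347/100000)) by linarith only [ht, ht', hu, hu', hv, hv', hk, hk'])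
  have q3 := mul_nonneg (pow_nonneg he 3) (show (0:ℝ) ≤ ((26531467/16200000) + (-864337/1620000)*t + (-1482079/1620000)*t^2 + (331/5400)*t^3 + (-4354351/12960000)*k - (-449/2500)) by linarith only [ht, ht', hu, hu', hv, hv', hk, hk'])
  have q4 := mul_nonneg (pow_nonneg he 4) (show (0:ℝ) ≤ ((-15717311/20250000) + (3215293/4050000)*t + (363013/1080000)*t^2 + (14617/324000)*t^3 + (-28897951/64800000)*k - (-28287/20000)) by linarith only [ht, ht', hu, hu', hv, hv', hk, hk'])
  have q5 := mul_nonneg (pow_nonneg he 5) (show (0:ℝ) ≤ ((1143481/27000000) + (-32972371/54000000)*t + (82519/1296000)*t^2 + (-107411/3240000)*t^3 + (1420787/1687500)*k - (6924/3125)) by linarith only [ht, ht', hu, hu', hv, hv', hk, hk'])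
  have q6 := mul_nonneg (pow_nonneg he 6) (show (0:ℝ) ≤ ((610853/2025000) + (-29513473/162000000)*t + (-161119/2160000)*t^2 + (23059/2160000)*t^3 + (-99459647/162000000)*k - (-21701/12500)) by linarith only [ht, ht', hu, hu', hv, hv', hk, hk'])
  have q7 := mul_nonneg (pow_nonneg he 7) (show (0:ℝ) ≤ ((-71371/500000) + (34219/500000)*t + (979283/6480000)*t^2 + (2977/648000)*t^3 + (31905083/108000000)*k - (88303/100000)) by linarith only [ht, ht', hu, hu', hv, hv', hk, hk'])
  have q8 := mul_nonneg (pow_nonneg he 8) (show (0:ℝ) ≤ ((1691599/27000000) + (-583501/4500000)*t + (30559/2160000)*t^2 + (-51877/3240000)*t^3 + (-9621493/108000000)*k - (-5969/20000)) by linarith only [ht, ht', hu, hu', hv, hv', hk, hk'])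
  have q9 := mul_nonneg (pow_nonneg he 9) (show (0:ℝ) ≤ ((15929/1350000) + (1978187/54000000)*t + (137/24000)*t^2 + (14441/3240000)*t^3 + (471521/54000000)*k - (6813/100000)) by linarith only [ht, ht', hu, hu', hv, hv', hk, hk'])
  have q10 := mul_nonneg (pow_nonneg he 10) (show (0:ℝ) ≤ ((-84763/16200000) + (-1802807/162000000)*t + (-113/1080000)*t^2 + (-15667/6480000)*t^3 + (163049/162000000)*k - (-1073/100000)) by linarith only [ht, ht', hu, hu', hv, hv', hk, hk'])
  have q11 := mul_nonneg (pow_nonneg he 11) (show (0:ℝ) ≤ ((81443/20250000) + (25979/10125000)*t + (11/135000)*t^2 + (89/648000)*t^3 + (-4523/2531250)*k - (41/100000)) by linarith only [ht, ht', hu, hu', hv, hv', hk, hk'])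
  have q12 := mul_nonneg (pow_nonneg he 12) (show (0:ℝ) ≤ ((-1529/6750000) + (-2497/13500000)*t + (-11/405000)*t^3 + (1529/13500000)*k - (-3/100000)) by linarith only [ht, ht', hu, hu', hv, hv', hk, hk'])
  have q13 := mul_nonneg (pow_nonneg he 13) (show (0:ℝ) ≤ ((121/2531250) + (121/5062500)*t + (-121/5062500)*k - (-1/50000)) by linarith only [ht, ht', hu, hu', hv, hv', hk, hk'])
  exact (add_nonneg (add_nonneg (add_nonneg (add_nonneg (add_nonneg (add_nonneg (add_nonneg (add_nonneg (add_nonneg (add_nonneg (add_nonneg (add_nonneg (add_nonneg q0 q1) q2) q3) q4) q5) q6) q7) q8) q9) q10) q11) q12) q13)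

lemma R_2 (e : ℝ) (he : 0 ≤ e) (he1 : 0 ≤ 1 - e) :
    0 ≤ (4053/100000)*e^0*(1-e)^13 + (41/80)*e^1*(1-e)^12 + (350213/100000)*e^2*(1-e)^11 + (1611041/100000)*e^3*(1-e)^10 + (1016873/20000)*e^4*(1-e)^9 + (5558307/50000)*e^5*(1-e)^8 + (8555923/50000)*e^6*(1-e)^7 + (18772437/100000)*e^7*(1-e)^6 + (367853/2500)*e^8*(1-e)^5 + (8153303/100000)*e^9*(1-e)^4 + (310441/10000)*e^10*(1-e)^3 + (191829/25000)*e^11*(1-e)^2 + (27429/25000)*e^12*(1-e)^1 + (169/2500)*e^13*(1-e)^0 := by
  positivity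

lemma Q_3 (e t k : ℝ) (he : 0 ≤ e)
    (ht : 0.693147180 ≤ t) (ht' : t ≤ 0.693147181) (hu : 0.480453013 ≤ t ^ 2) (hu' : t ^ 2 ≤ 0.480453015)
    (hv : 0.333024650 ≤ t ^ 3) (hv' : t ^ 3 ≤ 0.333024653) (hk : 3.0607884 ≤ k) (hk' : k ≤ 3.0607885) :
    0 ≤ e ^ 0 * ((731/1800) + (121/336)*t + (-1/2)*t^2 + (-3263/28800)*k - (6871/100000)) + e ^ 1 * ((180613/72000) + (3809/2240)*t + (-1837/3360)*t^2 + (-2303839/2016000)*k - (-7331/100000)) + e ^ 2 * ((-194529691/60480000) + (-794737/1209600)*t + (-10153/10080)*t^2 + (372265001/241920000)*k - (55413/100000)) + e ^ 3 * ((326951929/120960000) + (-4327559/24192000)*t + (-6237683/6048000)*t^2 + (3181/40320)*t^3 + (-455677633/604800000)*k - (-9819/50000)) + e ^ 4 * ((-1684245491/1209600000) + (254167867/241920000)*t + (19213919/80640000)*t^2 + (14801/302400)*t^3 + (-8998319167/24192000000)*k - (-167187/100000)) + e ^ 5 * ((2460270137/12096000000) + (-2643133267/2419200000)*t + (10683959/80640000)*t^2 + (-2087563/48384000)*t^3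 + (6808448833/6048000000)*k - (2941/1000)) + e ^ 6 * ((2236126087/6048000000) + (39403217/3456000000)*t + (-15379747/322560000)*t^2 + (1482881/60480000)*t^3 + (-3414227219/3456000000)*k - (-266091/100000)) + e ^ 7 * ((-68220443/288000000) + (46120769/1612800000)*t + (16416299/107520000)*t^2 + (1394203/967680000)*t^3 + (183924127/322560000)*k - (40051/25000)) + e ^ 8 * ((390595949/3024000000) + (-4986213247/24192000000)*t + (29529/896000)*t^2 + (-10390397/483840000)*t^3 + (-1050344587/4838400000)*k - (-16737/25000)) + e ^ 9 * ((6521033/2016000000) + (542680627/8064000000)*t + (521813/60480000)*t^2 + (2857949/322560000)*t^3 + (375787627/8064000000)*k - (499/2500)) + e ^ 10 * ((-45683207/6048000000) + (-636005911/24192000000)*t + (-78703/322560000)*t^2 + (-2507069/483840000)*t^3 + (-123240983/24192000000)*k - (-2161/50000)) + e ^ 11 * ((9605221/1209600000) + (163460149/24192000000)*t + (106453/322560000)*t^2 + (589937/967680000)*t^3 + (-58176301/24192000000)*k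 - (281/50000)) + e ^ 12 * ((-5670853/6048000000) + (-3187259/3456000000)*t + (-2633/161280000)*t^2 + (-67663/483840000)*t^3 + (4284589/12096000000)*k - (-7/12500)) + e ^ 13 * ((609/2560000) + (388541/2688000000)*t + (319/161280000)*t^2 + (7673/967680000)*t^3 + (-42287/384000000)*k - (-1/100000)) + e ^ 14 * ((-913/67200000) + (-4301/504000000)*t + (-319/483840000)*t^3 + (913/134400000)*k - (-1/100000)) + e ^ 15 * ((3509/3024000000) + (3509/6048000000)*t + (-3509/6048000000)*k - (-1/100000)) := by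
  have q0 := mul_nonneg (pow_nonneg he 0) (show (0:ℝ) ≤ ((731/1800) + (121/336)*t + (-1/2)*t^2 + (-3263/28800)*k - (6871/100000)) by linarith only [ht, ht', hu, hu', hv, hv', hk, hk'])
  have q1 := mul_nonneg (pow_nonneg he 1) (show (0:ℝ) ≤ ((180613/72000) + (3809/2240)*t + (-1837/3360)*t^2 + (-2303839/2016000)*k - (-7331/100000)) by linarith only [ht, ht', hu, hu', hv, hv', hk, hk'])
  have q2 := mul_nonneg (pow_nonneg he 2) (show (0:ℝ) ≤ ((-194529691/60480000) + (-794737/1209600)*t + (-10153/10080)*t^2 + (372265001/241920000)*k - (55413/100000)) by linarith only [ht, ht', hu, hu', hv, hv', hk, hk'])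
  have q3 := mul_nonneg (pow_nonneg he 3) (show (0:ℝ) ≤ ((326951929/120960000) + (-4327559/24192000)*t + (-6237683/6048000)*t^2 + (3181/40320)*t^3 + (-455677633/604800000)*k - (-9819/50000)) by linarith only [ht, ht', hu, hu', hv, hv', hk, hk'])
  have q4 := mul_nonneg (pow_nonneg he 4) (show (0:ℝ) ≤ ((-1684245491/1209600000) + (254167867/241920000)*t + (19213919/80640000)*t^2 + (14801/302400)*t^3 + (-8998319167/24192000000)*k - (-167187/100000)) by linarith only [ht, ht', hu, hu', hv, hv', hk, hk'])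
  have q5 := mul_nonneg (pow_nonneg he 5) (show (0:ℝ) ≤ ((2460270137/12096000000) + (-2643133267/2419200000)*t + (10683959/80640000)*t^2 + (-2087563/48384000)*t^3 + (6808448833/6048000000)*k - (2941/1000)) by linarith only [ht, ht', hu, hu', hv, hv', hk, hk'])
  have q6 := mul_nonneg (pow_nonneg he 6) (show (0:ℝ) ≤ ((2236126087/6048000000) + (39403217/3456000000)*t + (-15379747/322560000)*t^2 + (1482881/60480000)*t^3 + (-3414227219/3456000000)*k - (-266091/100000)) by linarith only [ht, ht', hu, hu', hv, hv', hk, hk'])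
  have q7 := mul_nonneg (pow_nonneg he 7) (show (0:ℝ) ≤ ((-68220443/288000000) + (46120769/1612800000)*t + (16416299/107520000)*t^2 + (1394203/967680000)*t^3 + (183924127/322560000)*k - (40051/25000)) by linarith only [ht, ht', hu, hu', hv, hv', hk, hk'])
  have q8 := mul_nonneg (pow_nonneg he 8) (show (0:ℝ) ≤ ((390595949/3024000000) + (-4986213247/24192000000)*t + (29529/896000)*t^2 + (-10390397/483840000)*t^3 + (-1050344587/4838400000)*k - (-16737/25000)) by linarith only [ht, ht', hu, hu', hv, hv', hk, hk'])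
  have q9 := mul_nonneg (pow_nonneg he 9) (show (0:ℝ) ≤ ((6521033/2016000000) + (542680627/8064000000)*t + (521813/60480000)*t^2 + (2857949/322560000)*t^3 + (375787627/8064000000)*k - (499/2500)) by linarith only [ht, ht', hu, hu', hv, hv', hk, hk'])
  have q10 := mul_nonneg (pow_nonneg he 10) (show (0:ℝ) ≤ ((-45683207/6048000000) + (-636005911/24192000000)*t + (-78703/322560000)*t^2 + (-2507069/483840000)*t^3 + (-123240983/24192000000)*k - (-2161/50000)) by linarith only [ht, ht', hu, hu', hv, hv', hk, hk'])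
  have q11 := mul_nonneg (pow_nonneg he 11) (show (0:ℝ) ≤ ((9605221/1209600000) + (163460149/24192000000)*t + (106453/322560000)*t^2 + (589937/967680000)*t^3 + (-58176301/24192000000)*k - (281/50000)) by linarith only [ht, ht', hu, hu', hv, hv', hk, hk'])
  have q12 := mul_nonneg (pow_nonneg he 12) (show (0:ℝ) ≤ ((-5670853/6048000000) + (-3187259/3456000000)*t + (-2633/161280000)*t^2 + (-67663/483840000)*t^3 + (4284589/12096000000)*k - (-7/12500)) by linarith only [ht, ht', hu, hu', hv, hv', hk, hk'])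
  have q13 := mul_nonneg (pow_nonneg he 13) (show (0:ℝ) ≤ ((609/2560000) + (388541/2688000000)*t + (319/161280000)*t^2 + (7673/967680000)*t^3 + (-42287/384000000)*k - (-1/100000)) by linarith only [ht, ht', hu, hu', hv, hv', hk, hk'])
  have q14 := mul_nonneg (pow_nonneg he 14) (show (0:ℝ) ≤ ((-913/67200000) + (-4301/504000000)*t + (-319/483840000)*t^3 + (913/134400000)*k - (-1/100000)) by linarith only [ht, ht', hu, hu', hv, hv', hk, hk'])
  have q15 := mul_nonneg (pow_nonneg he 15) (show (0:ℝ) ≤ ((3509/3024000000) + (3509/6048000000)*t + (-3509/6048000000)*k - (-1/100000)) by linarith only [ht, ht', hu, hu', hv, hv', hk, hk'])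
  exact (add_nonneg (add_nonneg (add_nonneg (add_nonneg (add_nonneg (add_nonneg (add_nonneg (add_nonneg (add_nonneg (add_nonneg (add_nonneg (add_nonneg (add_nonneg (add_nonneg (add_nonneg q0 q1) q2) q3) q4) q5) q6) q7) q8) q9) q10) q11) q12) q13) q14) q15)

lemma R_3 (e : ℝ) (he : 0 ≤ e) (he1 : 0 ≤ 1 - e) :
    0 ≤ (6871/100000)*e^0*(1-e)^15 + (47867/50000)*e^1*(1-e)^14 + (337117/50000)*e^2*(1-e)^13 + (631983/20000)*e^3*(1-e)^12 + (5314901/50000)*e^4*(1-e)^11 + (5260467/20000)*e^5*(1-e)^10 + (12123063/25000)*e^6*(1-e)^9 + (67209643/100000)*e^7*(1-e)^8 + (70346003/100000)*e^8*(1-e)^7 + (13880889/25000)*e^9*(1-e)^6 + (409331/1250)*e^10*(1-e)^5 + (2830269/20000)*e^11*(1-e)^4 + (135203/3125)*e^12*(1-e)^3 + (439783/50000)*e^13*(1-e)^2 + (105491/100000)*e^14*(1-e)^1 + (2767/50000)*e^15*(1-e)^0 := by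
  positivity

end Pool.Agent.H58.Tal.M5
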