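import Pool.Agent.H3.Tal.PolyA

/-! Generated polynomial inequalities (module M5). -/

set_option autoImplicit false
set_option maxRecDepth 100000
set_option linter.all false

namespace Pool.Agent.H58.Tal.M5

noncomputable def Tlo (e t a : ℝ) : ℝ :=
  (a * t / 2 - 2 * t + t ^ 2 * e - t * e + t ^ 2 * e ^ 2 / 2) * nu 1 e
    + (2 - 2 * t * e - a) * nu1 1 e + e * nu2 1 e

noncomputable def gpl (e t k : ℝ) : ℝ := ((-1/4) + (-7/48)*e + (359/400)*e^2 + (-4473/8000)*e^3 + (7471/40000)*e^4 + (-713/15000)*e^5 + (179/30000)*e^6 + (6719/120000)*e^7 + (-1849/24000)*e^8 + (77/3000)*e^9 + (-121/30000)*e^10) + ((-1/6) + (7/40)*e + (423/800)*e^2 + (-379/960)*e^3 + (-899/4800)*e^4 + (1349/4800)*e^5 + (-231/1600)*e^6 + (-19/2400)*e^7 + (11/480)*e^8)*t + ((1/12)*e + (-1/240)*e^2 + (-57/400)*e^3 + (173/4800)*e^4 + (121/2400)*e^5 + (-19/480)*e^6 + (1/75)*e^7 + (37/4800)*e^8 + (-11/2400)*e^9)*t^2 + ((1/8) + (-1/80)*e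 + (-3101/9600)*e^2 + (4429/12000)*e^3 + (-28087/240000)*e^4 + (-6317/40000)*e^5 + (59659/240000)*e^6 + (-20549/120000)*e^7 + (5839/80000)*e^8 + (-1133/60000)*e^9 + (121/60000)*e^10)*k

lemma GTlo (e t a k : ℝ) (hk : k * t = 2 * k - 4) (ha : a * GG e = aGG e k) :
    Tlo e t a * GG e = gpl e t k := by
  rw [Tlo, nu_1, nu1_1, nu2_1]
  rw [aGG] at ha
  simp only [GG, gg, gg', gpl] at ha ⊢
  linear_combination (((1/12) + (-1/24)*e + (-1/12)*e^2 + (1/24)*e^3) * (t / 2) - ((-1/24) + (-1/6)*e + (1/8)*e^2)) * ha + ((1 - (21 / 20) * e + (59 / 100) * e ^ 2 - (11 / 50) * e ^ 3) * ((1 - (21 / 20) * e + (59 / 100) * e ^ 2 - (11 / 50) * e ^ 3) * (1 + e)) * ((1/12) + (-1/24)*e + (-1/12)*e^2 + (1/24)*e^3) * (1 / 2)) * hk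

lemma gpl_nonneg (e t k : ℝ) (he : 0 ≤ e) (he1 : e ≤ 1)
    (ht : 0.693147180 ≤ t) (ht' : t ≤ 0.693147181) (hu : 0.480453013 ≤ t ^ 2) (hu' : t ^ 2 ≤ 0.480453015)
    (hv : 0.333024650 ≤ t ^ 3) (hv' : t ^ 3 ≤ 0.333024653) (hk : 3.0607884 ≤ k) (hk' : k ≤ 3.0607885) :
    0 ≤ gpl e t k := by
  have q0 := mul_nonneg (pow_nonneg he 0) (show (0:ℝ) ≤ ((-1/4) + (-1/6)*t + (1/8)*k - (853/50000)) by linarith)
  have q1 := mul_nonneg (pow_nonneg he 1) (show (0:ℝ) ≤ ((-7/48) + (7/40)*t + (1/12)*t^2 + (-1/80)*k - (-569/25000)) by linarith)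
  have q2 := mul_nonneg (pow_nonneg he 2) (show (0:ℝ) ≤ ((359/400) + (423/800)*t + (-1/240)*t^2 + (-3101/9600)*k - (27329/100000)) by linarith)
  have q3 := mul_nonneg (pow_nonneg he 3) (show (0:ℝ) ≤ ((-4473/8000) + (-379/960)*t + (-57/400)*t^2 + (4429/12000)*k - (5711/25000)) by linarith)
  have q4 := mul_nonneg (pow_nonneg he 4) (show (0:ℝ) ≤ ((7471/40000) + (-899/4800)*t + (173/4800)*t^2 + (-28087/240000)*k - (-14197/50000)) by linarith)
  have q5 := mul_nonneg (pow_nonneg he 5) (show (0:ℝ) ≤ ((-713/15000) + (1349/4800)*t + (121/2400)*t^2 + (-6317/40000)*k - (-31189/100000)) by linarith)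
  have q6 := mul_nonneg (pow_nonneg he 6) (show (0:ℝ) ≤ ((179/30000) + (-231/1600)*t + (-19/480)*t^2 + (59659/240000)*k - (64771/100000)) by linarith)
  have q7 := mul_nonneg (pow_nonneg he 7) (show (0:ℝ) ≤ ((6719/120000) + (-19/2400)*t + (1/75)*t^2 + (-20549/120000)*k - (-46723/100000)) by linarith)
  have q8 := mul_nonneg (pow_nonneg he 8) (show (0:ℝ) ≤ ((-1849/24000) + (11/480)*t + (37/4800)*t^2 + (5839/80000)*k - (8297/50000)) by linarith)
  have q9 := mul_nonneg (pow_nonneg he 9) (show (0:ℝ) ≤ ((77/3000) + (-11/2400)*t^2 + (-1133/60000)*k - (-1717/50000)) by linarith)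
  have q10 := mul_nonneg (pow_nonneg he 10) (show (0:ℝ) ≤ ((-121/30000) + (121/60000)*k - (213/100000)) by linarith)
  have he2 : 0 ≤ 1 - e := by linarith
  have r : 0 ≤ (853/50000)*e^0*(1-e)^10 + (462/3125)*e^1*(1-e)^9 + (16723/20000)*e^2*(1-e)^8 + (18213/5000)*e^3*(1-e)^7 + (531901/50000)*e^4*(1-e)^6 + (1951731/100000)*e^5*(1-e)^5 + (226697/10000)*e^6*(1-e)^4 + (1676091/100000)*e^7*(1-e)^3 + (767021/100000)*e^8*(1-e)^2 + (49369/25000)*e^9*(1-e)^1 + (21441/100000)*e^10*(1-e)^0 := by positivity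
  have h := add_nonneg (add_nonneg (add_nonneg (add_nonneg (add_nonneg (add_nonneg (add_nonneg (add_nonneg (add_nonneg (add_nonneg (add_nonneg q0 q1) q2) q3) q4) q5) q6) q7) q8) q9) q10) r
  refine le_of_le_of_eq h ?_
  simp only [gpl]; ring

lemma a_ge_two (e t k : ℝ) (he : 0 ≤ e) (he1 : e ≤ 1)
    (ht : 0.693147180 ≤ t) (ht' : t ≤ 0.693147181) (hu : 0.480453013 ≤ t ^ 2) (hu' : t ^ 2 ≤ 0.480453015)
    (hv : 0.333024650 ≤ t ^ 3) (hv' : t ^ 3 ≤ 0.333024653) (hk : 3.0607884 ≤ k) (hk' : k ≤ 3.0607885) :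
    0 ≤ aGG e k - 2 * GG e := by
  have q0 := mul_nonneg (pow_nonneg he 0) (show (0:ℝ) ≤ ((-2) + 1*k - (53039/50000)) by linarith)
  have q1 := mul_nonneg (pow_nonneg he 1) (show (0:ℝ) ≤ ((21/10) + (-11/10)*k - (-3959/3125)) by linarith)
  have q2 := mul_nonneg (pow_nonneg he 2) (show (0:ℝ) ≤ ((-13/100) + (73/400)*k - (21429/50000)) by linarith)
  have q3 := mul_nonneg (pow_nonneg he 3) (show (0:ℝ) ≤ ((31/100) + (1207/2000)*k - (107859/50000)) by linarith)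
  have q4 := mul_nonneg (pow_nonneg he 4) (show (0:ℝ) ≤ ((-13/25) + (-8689/10000)*k - (-317953/100000)) by linarith)
  have q5 := mul_nonneg (pow_nonneg he 5) (show (0:ℝ) ≤ ((33/50) + (1101/2000)*k - (46899/20000)) by linarith)
  have q6 := mul_nonneg (pow_nonneg he 6) (show (0:ℝ) ≤ ((-132/625)*k - (-12929/20000)) by linarith)
  have q7 := mul_nonneg (pow_nonneg he 7) (show (0:ℝ) ≤ ((121/2500)*k - (14813/100000)) by linarith)
  have he2 : 0 ≤ 1 - e := by linarith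
  have r : 0 ≤ (53039/50000)*e^0*(1-e)^7 + (307929/50000)*e^1*(1-e)^6 + (47199/3125)*e^2*(1-e)^5 + (1121209/50000)*e^3*(1-e)^4 + (2152469/100000)*e^4*(1-e)^3 + (665421/50000)*e^5*(1-e)^2 + (255033/50000)*e^6*(1-e)^1 + (26169/25000)*e^7*(1-e)^0 := by positivity
  have h := add_nonneg (add_nonneg (add_nonneg (add_nonneg (add_nonneg (add_nonneg (add_nonneg (add_nonneg q0 q1) q2) q3) q4) q5) q6) q7) r
  refine le_of_le_of_eq h ?_
  simp only [aGG, GG, gg, gg']; ring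

lemma gg_pos (e : ℝ) (he : 0 ≤ e) (he1 : e ≤ 1) : 0 < gg e := by
  have h : 0 ≤ 1 - e := by linarith
  have key : gg e = (1-e)^3 + (39/20)*e*(1-e)^2 + (149/100)*e^2*(1-e) + (8/25)*e^3 := by
    simp only [gg]; ring
  rw [key]
  rcases eq_or_lt_of_le he with h0 | h0
  · rw [← h0]; norm_num
  · have : 0 < (8/25)*e^3 := by positivity
    positivity

end Pool.Agent.H58.Tal.M5
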