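import Pool.Agent.H58.Tal.M7a

/-! Power series (in `s`, then in `t = s²`) of `(1+s)^r`, `(1+s)^r log(1+s)`, `(1+s)^r log²(1+s)`. -/

set_option autoImplicit false

open Finset Real Filter Topology

namespace Pool.Agent.H58.Tal.M5

/-- binomial coefficients `C(r,k)` and their first two derivatives in `r` -/
noncomputable def bb : ℕ → ℝ → ℝ
  | 0, _ => 1
  | k + 1, r => bb k r * ((r - k) / (k + 1))
noncomputable def b1 : ℕ → ℝ → ℝ
  | 0, _ => 0
  | k + 1, r => b1 k r * ((r - k) / (k + 1)) + bb k r / (k + 1)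
noncomputable def b2 : ℕ → ℝ → ℝ
  | 0, _ => 0
  | k + 1, r => b2 k r * ((r - k) / (k + 1)) + 2 * b1 k r / (k + 1)

lemma bb_eq (k : ℕ) (r : ℝ) : bb k r = Ring.choose r k := by
  induction k with
  | zero => simp [bb]
  | succ k ih =>
    have h := rc_succ r k
    have hk : ((k : ℝ) + 1) ≠ 0 := by positivity
    rw [bb, ih]
    field_simp
    linarith

lemma hasDerivAt_bb (k : ℕ) (r : ℝ) : HasDerivAt (bb k) (b1 k r) r := by
  induction k with
  | zero => simpa [bb, b1] using hasDerivAt_const r (1 : ℝ)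
  | succ k ih =>
    have h : HasDerivAt (fun r : ℝ => (r - k) / (k + 1)) (1 / (k + 1)) r :=
      ((hasDerivAt_id r).sub_const (k : ℝ)).div_const _
    have h2 := ih.mul h
    have e1 : bb (k + 1) = fun r => bb k r * ((r - k) / (k + 1)) := by funext r; rfl
    rw [e1, b1]
    refine h2.congr_deriv ?_
    ring

lemma hasDerivAt_b1 (k : ℕ) (r : ℝ) : HasDerivAt (b1 k) (b2 k r) r := by
  induction k with
  | zero => simpa [b1, b2] using hasDerivAt_const r (0 : ℝ)
  | succ k ih =>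
    have h : HasDerivAt (fun r : ℝ => (r - k) / (k + 1)) (1 / (k + 1)) r :=
      ((hasDerivAt_id r).sub_const (k : ℝ)).div_const _
    have h2 := (ih.mul h).add ((hasDerivAt_bb k r).div_const ((k : ℝ) + 1))
    have e1 : b1 (k + 1) = fun r => b1 k r * ((r - k) / (k + 1)) + bb k r / (k + 1) := by
      funext r; rfl
    rw [e1, b2]
    refine h2.congr_deriv ?_
    ring

lemma fac_le (k : ℕ) (hk : 1 ≤ k) (r : ℝ) (h0 : 0 ≤ r) (h2 : r ≤ 2) :
    |(r - k) / (k + 1)| ≤ 1 := by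
  have hk1 : (1 : ℝ) ≤ k := by exact_mod_cast hk
  rw [abs_div, abs_of_pos (by positivity : (0 : ℝ) < (k : ℝ) + 1), div_le_one (by positivity)]
  rw [abs_le]
  constructor <;> linarith

lemma bb_le (k : ℕ) (r : ℝ) (h0 : 0 ≤ r) (h2 : r ≤ 2) : |bb k r| ≤ 2 := by
  induction k with
  | zero => simp [bb]
  | succ k ih =>
    rcases Nat.eq_zero_or_pos k with rfl | hk
    · simp only [bb, Nat.cast_zero, sub_zero, zero_add, div_one, one_mul]
      rw [abs_of_nonneg h0]; exact h2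
    · rw [bb, abs_mul]
      have := fac_le k hk r h0 h2
      nlinarith [abs_nonneg (bb k r)]

lemma b1_le (k : ℕ) (r : ℝ) (h0 : 0 ≤ r) (h2 : r ≤ 2) : |b1 k r| ≤ 2 * k := by
  induction k with
  | zero => simp [b1]
  | succ k ih =>
    rcases Nat.eq_zero_or_pos k with rfl | hk
    · simp [b1, bb]
    · rw [b1]
      have h1 := fac_le k hk r h0 h2
      have h3 := bb_le k r h0 h2
      have hk0 : (0 : ℝ) < (k : ℝ) + 1 := by positivity
      have h4 : |bb k r / (k + 1)| ≤ 2 := by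
        rw [abs_div, abs_of_pos hk0, div_le_iff₀ hk0]
        have : (0 : ℝ) ≤ k := by positivity
        nlinarith
      calc |b1 k r * ((r - k) / (k + 1)) + bb k r / (k + 1)|
          ≤ |b1 k r * ((r - k) / (k + 1))| + |bb k r / (k + 1)| := abs_add_le _ _
        _ ≤ 2 * k + 2 := by
          rw [abs_mul]
          nlinarith [abs_nonneg (b1 k r)]
        _ = 2 * ((k + 1 : ℕ) : ℝ) := by push_cast; ring

lemma b2_le (k : ℕ) (r : ℝ) (h0 : 0 ≤ r) (h2 : r ≤ 2) : |b2 k r| ≤ 4 * k := by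
  induction k with
  | zero => simp [b2]
  | succ k ih =>
    rcases Nat.eq_zero_or_pos k with rfl | hk
    · simp [b1, b2]
    · rw [b2]
      have h1 := fac_le k hk r h0 h2
      have h3 := b1_le k r h0 h2
      have hk0 : (0 : ℝ) < (k : ℝ) + 1 := by positivity
      have h4 : |2 * b1 k r / (k + 1)| ≤ 4 := by
        rw [abs_div, abs_of_pos hk0, div_le_iff₀ hk0, abs_mul, abs_of_pos (by norm_num : (0:ℝ) < 2)]
        linarith
      calc |b2 k r * ((r - k) / (k + 1)) + 2 * b1 k r / (k + 1)|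
          ≤ |b2 k r * ((r - k) / (k + 1))| + |2 * b1 k r / (k + 1)| := abs_add_le _ _
        _ ≤ 4 * k + 4 := by
          rw [abs_mul]
          nlinarith [abs_nonneg (b2 k r)]
        _ = 4 * ((k + 1 : ℕ) : ℝ) := by push_cast; ring

lemma hasSum_bb (r x : ℝ) (hx : |x| < 1) : HasSum (fun k => bb k r * x ^ k) ((1 + x) ^ r) := by
  simp only [bb_eq]
  exact hasSum_rpow r x hx

lemma summable_lin (c x : ℝ) (hx : |x| < 1) : Summable (fun k : ℕ => c * k * |x| ^ k) := by
  have h := summable_pow_mul_geometric_of_norm_lt_one 1 (r := |x|) (by simpa using hx)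
  have h2 := h.mul_left c
  refine h2.congr (fun k => ?_)
  simp; ring

lemma hasSum_b1 (r x : ℝ) (h0 : 0 < r) (h2 : r < 2) (hx : |x| < 1) :
    HasSum (fun k => b1 k r * x ^ k) ((1 + x) ^ r * Real.log (1 + x)) := by
  have hx' : 0 < 1 + x := by linarith [(abs_lt.1 hx).1]
  have hbd : ∀ (n : ℕ) (y : ℝ), y ∈ Set.Ioo (0 : ℝ) 2 → ‖b1 n y * x ^ n‖ ≤ 2 * n * |x| ^ n := by
    intro n y hy
    rw [norm_mul, norm_pow, Real.norm_eq_abs, Real.norm_eq_abs]
    exact mul_le_mul_of_nonneg_right (b1_le n y hy.1.le hy.2.le) (by positivity)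
  have hd := hasDerivAt_tsum_of_isPreconnected (summable_lin 2 x hx) isOpen_Ioo
    isPreconnected_Ioo (fun n y _ => (hasDerivAt_bb n y).mul_const (x ^ n)) hbd
    (⟨h0, h2⟩ : r ∈ Set.Ioo (0:ℝ) 2) (hasSum_bb r x hx).summable ⟨h0, h2⟩
  have e1 : (fun z => ∑' n, bb n z * x ^ n) = fun z => (1 + x) ^ z := by
    funext z; exact (hasSum_bb z x hx).tsum_eq
  rw [e1] at hd
  have hd2 := Real.hasStrictDerivAt_const_rpow hx' r |>.hasDerivAt
  have e2 := hd.unique hd2
  have hs : Summable (fun n => b1 n r * x ^ n) :=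
    Summable.of_norm_bounded (summable_lin 2 x hx) (fun n => hbd n r ⟨h0, h2⟩)
  rw [← e2]
  exact hs.hasSum

lemma hasSum_b2 (r x : ℝ) (h0 : 0 < r) (h2 : r < 2) (hx : |x| < 1) :
    HasSum (fun k => b2 k r * x ^ k) ((1 + x) ^ r * Real.log (1 + x) ^ 2) := by
  have hx' : 0 < 1 + x := by linarith [(abs_lt.1 hx).1]
  have hbd : ∀ (n : ℕ) (y : ℝ), y ∈ Set.Ioo (0 : ℝ) 2 → ‖b2 n y * x ^ n‖ ≤ 4 * n * |x| ^ n := by
    intro n y hy
    rw [norm_mul, norm_pow, Real.norm_eq_abs, Real.norm_eq_abs]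
    exact mul_le_mul_of_nonneg_right (b2_le n y hy.1.le hy.2.le) (by positivity)
  have hd := hasDerivAt_tsum_of_isPreconnected (summable_lin 4 x hx) isOpen_Ioo
    isPreconnected_Ioo (fun n y _ => (hasDerivAt_b1 n y).mul_const (x ^ n)) hbd
    (⟨h0, h2⟩ : r ∈ Set.Ioo (0:ℝ) 2) (hasSum_b1 r x h0 h2 hx).summable ⟨h0, h2⟩
  have hd2 : HasDerivAt (fun z => (1 + x) ^ z * Real.log (1 + x))
      ((1 + x) ^ r * Real.log (1 + x) * Real.log (1 + x)) r :=
    ((Real.hasStrictDerivAt_const_rpow hx' r).hasDerivAt).mul_const _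
  have hd3 : HasDerivAt (fun z => ∑' n, b1 n z * x ^ n)
      ((1 + x) ^ r * Real.log (1 + x) * Real.log (1 + x)) r := by
    refine hd2.congr_of_eventuallyEq ?_
    filter_upwards [isOpen_Ioo.mem_nhds (⟨h0, h2⟩ : r ∈ Set.Ioo (0:ℝ) 2)] with z hz
    exact (hasSum_b1 z x hz.1 hz.2 hx).tsum_eq
  have e2 := hd.unique hd3
  have hs : Summable (fun n => b2 n r * x ^ n) :=
    Summable.of_norm_bounded (summable_lin 4 x hx) (fun n => hbd n r ⟨h0, h2⟩)
  have e3 : (1 + x) ^ r * Real.log (1 + x) ^ 2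
      = (1 + x) ^ r * Real.log (1 + x) * Real.log (1 + x) := by ring
  rw [e3, ← e2]
  exact hs.hasSum

/-- even part of a power series -/
lemma hasSum_even (c : ℕ → ℝ) (s A B : ℝ) (hA : HasSum (fun k => c k * s ^ k) A)
    (hB : HasSum (fun k => c k * (-s) ^ k) B) :
    HasSum (fun j => c (2 * j) * (s ^ 2) ^ j) ((A + B) / 2) := by
  have h3 := (hA.add hB).div_const 2
  have hinj : Function.Injective (fun j : ℕ => 2 * j) := by
    intro a b hab
    simpa using hab
  have h5 := (hinj.hasSum_iff (f := fun n => (c n * s ^ n + c n * (-s) ^ n) / 2)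
    (a := (A + B) / 2) (by
      intro n hn
      have hodd : Odd n := by
        rcases Nat.even_or_odd n with he | ho
        · exfalso
          obtain ⟨m, hm⟩ := he
          exact hn ⟨m, by simp; omega⟩
        · exact ho
      rw [hodd.neg_pow]; ring)).2 h3
  have e : (fun j => c (2 * j) * (s ^ 2) ^ j)
      = (fun n => (c n * s ^ n + c n * (-s) ^ n) / 2) ∘ (fun j : ℕ => 2 * j) := by
    funext j
    simp only [Function.comp_apply]
    rw [(even_two_mul j).neg_pow, pow_mul]; ring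
  rw [e]; exact h5

/-- bound of the tail by its total mass -/
lemma tail_bound (c : ℕ → ℝ) (F : ℝ → ℝ) (J : ℕ) (L : ℝ)
    (hF : ∀ x, 0 ≤ x → x < 1 → HasSum (fun j => c j * x ^ j) (F x))
    (hc : ∀ j, J < j → 0 ≤ c j) (hL : Tendsto F (𝓝[<] 1) (𝓝 L)) (x : ℝ) (h0 : 0 ≤ x)
    (h1 : x < 1) :
    F x ≤ ∑ j ∈ range (J + 1), c j * x ^ j + x ^ (J + 1) * (L - ∑ j ∈ range (J + 1), c j) := by
  have hpart : ∀ n, J + 1 ≤ n → ∑ j ∈ range n, c j ≤ L := by
    intro n hn
    have h2 : Tendsto (fun y : ℝ => ∑ j ∈ range n, c j * y ^ j) (𝓝[<] 1)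
        (𝓝 (∑ j ∈ range n, c j * 1 ^ j)) := by
      apply Tendsto.mono_left _ nhdsWithin_le_nhds
      exact Continuous.tendsto (by fun_prop) 1
    have h3 := le_of_tendsto_of_tendsto h2 hL (by
      filter_upwards [Ioo_mem_nhdsLT (zero_lt_one' ℝ)] with y hy
      refine sum_le_hasSum _ ?_ (hF y hy.1.le hy.2)
      intro j hj
      rw [Finset.mem_range, not_lt] at hj
      exact mul_nonneg (hc j (by omega)) (pow_nonneg hy.1.le _))
    simpa using h3
  have hlim := (hF x h0 h1).tendsto_sum_nat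
  refine le_of_tendsto hlim ?_
  filter_upwards [eventually_ge_atTop (J + 1)] with n hn
  rw [← Finset.sum_range_add_sum_Ico _ hn]
  have h4 := hpart n hn
  rw [← Finset.sum_range_add_sum_Ico _ hn] at h4
  have h5 : ∑ j ∈ Ico (J + 1) n, c j * x ^ j ≤ x ^ (J + 1) * ∑ j ∈ Ico (J + 1) n, c j := by
    rw [Finset.mul_sum]
    refine Finset.sum_le_sum (fun j hj => ?_)
    rw [Finset.mem_Ico] at hj
    obtain ⟨m, rfl⟩ := Nat.exists_eq_add_of_le hj.1
    have h6 : x ^ m ≤ 1 := pow_le_one₀ h0 h1.le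
    have h7 : 0 ≤ c (J + 1 + m) * x ^ (J + 1) :=
      mul_nonneg (hc _ (by omega)) (pow_nonneg h0 _)
    rw [pow_add]
    nlinarith
  have h8 : x ^ (J + 1) * ∑ j ∈ Ico (J + 1) n, c j
      ≤ x ^ (J + 1) * (L - ∑ j ∈ range (J + 1), c j) :=
    mul_le_mul_of_nonneg_left (by linarith) (pow_nonneg h0 _)
  linarith

end Pool.Agent.H58.Tal.M5
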